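import Pool.Agent.MP_5f0aae_co.Struct

/-! Blocks: the orbit of an embedded connected model. -/

namespace Pool.Agent.MP_5f0aae_co

open Finset Equiv Function Sum

variable {T S J : Type} [DecidableEq T] [DecidableEq S] [DecidableEq J]
  [Fintype T] [Fintype S] [Fintype J] {K : Type*} [Field K]

def Conn (nb : J → Finset (T ⊕ J)) : Prop :=
  ∀ P : J → Prop, (∀ i i', P i → inr i' ∈ nb i → P i') → ∀ i i', P i → P i'

open Classical in
noncomputable def embs (nbJ : J → Finset (T ⊕ J)) (nb : S → Finset (T ⊕ S)) : Finset (J → S) :=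
  univ.filter fun e => Injective e ∧ Hom id e nbJ nb

omit [Fintype T] in
theorem mem_embs {nbJ : J → Finset (T ⊕ J)} {nb : S → Finset (T ⊕ S)} {e : J → S} :
    e ∈ embs nbJ nb ↔ Injective e ∧ Hom id e nbJ nb := by
  simp [embs]

open Classical in
noncomputable def auts (φ : Perm T) (nbJ : J → Finset (T ⊕ J)) : Finset (Perm J) :=
  univ.filter fun δ => Hom φ δ nbJ nbJ

omit [Fintype T] in
theorem mem_auts {φ : Perm T} {nbJ : J → Finset (T ⊕ J)} {δ : Perm J} :
    δ ∈ auts φ nbJ ↔ Hom φ δ nbJ nbJ := by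
  simp [auts]

def blockPerm (n : ℕ) (δ : Perm J) : Perm (Fin (n + 1) × J) :=
  (Equiv.prodCongrLeft fun _ : J => finRotate (n + 1)) * Perm.prodExtendRight (Fin.last n) δ

def blockNb (τ : Perm T) (nbJ : J → Finset (T ⊕ J)) (n : ℕ) (b : Fin (n + 1) × J) :
    Finset (T ⊕ (Fin (n + 1) × J)) :=
  (nbJ b.2).image (Sum.map (τ ^ (b.1 : ℕ) : Perm T) fun i => (b.1, i))

def block (τ : Perm T) (nbJ : J → Finset (T ⊕ J)) (n : ℕ) (δ : Perm J) :
    Perm (Fin (n + 1) × J) × (Fin (n + 1) × J → Finset (T ⊕ (Fin (n + 1) × J))) :=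
  (blockPerm n δ, blockNb τ nbJ n)

omit [DecidableEq J] [Fintype J] in
theorem blockPerm_last (n : ℕ) (δ : Perm J) (i : J) :
    blockPerm n δ (Fin.last n, i) = (0, δ i) := by
  simp [blockPerm, Equiv.prodCongrLeft]

omit [DecidableEq J] [Fintype J] in
theorem blockPerm_castSucc {n : ℕ} (δ : Perm J) (a : Fin n) (i : J) :
    blockPerm n δ (a.castSucc, i) = (a.succ, i) := by
  have h : a.castSucc ≠ Fin.last n := (Fin.castSucc_lt_last a).ne
  simp [blockPerm, Equiv.prodCongrLeft, Perm.prodExtendRight_apply_ne _ h]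

theorem sign_blockPerm (n : ℕ) (δ : Perm J) :
    Perm.sign (blockPerm n δ) = (-1) ^ (n * Fintype.card J) * Perm.sign δ := by
  simp [blockPerm, Perm.sign_prodCongrLeft, sign_finRotate, pow_mul]

omit [Fintype T] [Fintype J] in
theorem hom_blockNb (τ : Perm T) (nbJ : J → Finset (T ⊕ J)) (n : ℕ) (a : Fin (n + 1)) :
    Hom (τ ^ (a : ℕ) : Perm T) (fun i => (a, i)) nbJ (blockNb τ nbJ n) := fun _ => rfl

omit [Fintype T] in
theorem td_blockNb (τ : Perm T) (nbJ : J → Finset (T ⊕ J)) (n : ℕ) :
    td (blockNb τ nbJ n) = (n + 1) * td nbJ := by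
  unfold td
  rw [Fintype.sum_prod_type]
  have : ∀ (a : Fin (n + 1)) (i : J), tdv (blockNb τ nbJ n (a, i)) = tdv (nbJ i) := fun a i => by
    rw [hom_blockNb τ nbJ n a i, tdv_image (Equiv.injective _) (Prod.mk_right_injective a)]
  simp [this]

theorem block_mem_St {τ : Perm T} {nbJ : J → Finset (T ⊕ J)} (hJ : Pre nbJ) {n : ℕ} {δ : Perm J}
    (hδ : δ ∈ auts (τ ^ (n + 1)) nbJ) : block τ nbJ n δ ∈ St τ (Fin (n + 1) × J) := by
  rw [mem_auts] at hδ
  refine mem_St.2 ⟨⟨?_, ?_, ?_⟩, ?_⟩
  · rintro ⟨a, i⟩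
    change (blockNb τ nbJ n (a, i)).card = 2
    rw [hom_blockNb τ nbJ n a i, card_image_of_injective _
      (Sum.map_injective.2 ⟨Equiv.injective _, Prod.mk_right_injective a⟩), hJ.card]
  · rintro u ⟨a, i⟩ h
    obtain ⟨w, hw, rfl⟩ := (hom_blockNb τ nbJ n a).exists_of_inr_mem h
    exact (hom_blockNb τ nbJ n a).inr_mem (hJ.symm _ _ hw)
  · rintro ⟨a, i⟩ h
    obtain ⟨w, hw, hwi⟩ := (hom_blockNb τ nbJ n a).exists_of_inr_mem h
    rw [(Prod.mk.inj hwi).2] at hw
    exact hJ.irrefl _ hw
  · rintro ⟨a, i⟩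
    change blockNb τ nbJ n (blockPerm n δ (a, i)) =
      (blockNb τ nbJ n (a, i)).image (Sum.map τ (blockPerm n δ))
    rw [hom_blockNb τ nbJ n a i, image_image, Sum.map_comp_map]
    induction a using Fin.lastCases with
    | last =>
      rw [blockPerm_last, hom_blockNb τ nbJ n 0, hδ i, image_image, Sum.map_comp_map]
      congr 2
      · funext t
        simp [pow_succ']
      · funext i'
        simp [blockPerm_last]
    | cast a =>
      rw [blockPerm_castSucc, hom_blockNb τ nbJ n a.succ]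
      congr 2
      · funext t
        simp [pow_succ']
      · funext i'
        simp [blockPerm_castSucc]

omit [Fintype T] in
theorem wt_block (x : K) (τ : Perm T) {nbJ : J → Finset (T ⊕ J)} {d : ℕ} (hd : td nbJ = 2 * d)
    (n : ℕ) (δ : Perm J) : wt x (block τ nbJ n δ) =
      (-1) ^ (n * Fintype.card J) * ((Perm.sign δ : ℤ) : K) * x ^ ((n + 1) * d) := by
  unfold wt
  have : td (block τ nbJ n δ).2 / 2 = (n + 1) * d := by
    change td (blockNb τ nbJ n) / 2 = _
    rw [td_blockNb, hd, mul_left_comm, Nat.mul_div_cancel_left _ two_pos]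
  rw [this]
  change ((Perm.sign (blockPerm n δ) : ℤ) : K) * _ = _
  rw [sign_blockPerm]
  simp

open Classical in
noncomputable def blockEmbs (τ : Perm T) (nbJ : J → Finset (T ⊕ J)) (n : ℕ) (δ : Perm J)
    (p : Perm S × (S → Finset (T ⊕ S))) : Finset (Fin (n + 1) × J → S) :=
  univ.filter fun e => Injective e ∧ Ext e (block τ nbJ n δ) p

omit [Fintype T] in
theorem mem_blockEmbs {τ : Perm T} {nbJ : J → Finset (T ⊕ J)} {n : ℕ} {δ : Perm J}
    {p : Perm S × (S → Finset (T ⊕ S))} {e : Fin (n + 1) × J → S} :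
    e ∈ blockEmbs τ nbJ n δ p ↔ Injective e ∧ Ext e (block τ nbJ n δ) p := by
  simp [blockEmbs]

omit [Fintype T] [Fintype S] [Fintype J] in
theorem ext_block_apply {τ : Perm T} {nbJ : J → Finset (T ⊕ J)} {n : ℕ} {δ : Perm J}
    {p : Perm S × (S → Finset (T ⊕ S))} {e : Fin (n + 1) × J → S}
    (h : Ext e (block τ nbJ n δ) p) (a : Fin (n + 1)) (i : J) :
    e (a, i) = (p.1 ^ (a : ℕ)) (e (0, i)) := by
  induction a using Fin.induction with
  | zero => simp
  | succ a ih =>
    have := h.1 (a.castSucc, i)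
    change _ = e (blockPerm n δ _) at this
    rw [blockPerm_castSucc] at this
    rw [← this, ih]
    simp [pow_succ']

omit [Fintype T] [Fintype S] [Fintype J] in
theorem ext_block_last {τ : Perm T} {nbJ : J → Finset (T ⊕ J)} {n : ℕ} {δ : Perm J}
    {p : Perm S × (S → Finset (T ⊕ S))} {e : Fin (n + 1) × J → S}
    (h : Ext e (block τ nbJ n δ) p) (i : J) :
    (p.1 ^ (n + 1)) (e (0, i)) = e (0, δ i) := by
  have := h.1 (Fin.last n, i)
  change _ = e (blockPerm n δ _) at this
  rw [blockPerm_last] at this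
  rw [← this, ext_block_apply h (Fin.last n) i]
  simp [pow_succ']

omit [Fintype T] [Fintype S] [Fintype J] [DecidableEq J] in
theorem pow_mem_range {τ : Perm T} {nbJ : J → Finset (T ⊕ J)} (hc : Conn nbJ) {ρ : Perm S}
    {nb : S → Finset (T ⊕ S)} (hρ : Hom τ ρ nb nb) {e : J → S} (he : Hom id e nbJ nb) (c : ℕ)
    {i : J} (hi : (ρ ^ c) (e i) ∈ Set.range e) (i' : J) : (ρ ^ c) (e i') ∈ Set.range e := by
  refine hc (fun i => (ρ ^ c) (e i) ∈ Set.range e) (fun i i' hi hii' => ?_) i i' hi
  obtain ⟨k, hk⟩ := hi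
  have h1 := ((hρ.pow c).comp he).inr_mem hii'
  simp only [Function.comp_apply] at h1
  rw [← hk] at h1
  obtain ⟨u, -, hu⟩ := he.exists_of_inr_mem h1
  exact ⟨u, hu⟩

theorem card_embs_eq [Nonempty J] {τ : Perm T} {nbJ : J → Finset (T ⊕ J)} (hc : Conn nbJ)
    {p : Perm S × (S → Finset (T ⊕ S))} (hp : p ∈ St τ S) :
    (embs nbJ p.2).card = ∑ n ∈ range (Fintype.card S), ∑ δ ∈ auts (τ ^ (n + 1)) nbJ,
      (blockEmbs τ nbJ n δ p).card := by
  classical
  obtain ⟨i₀⟩ := ‹Nonempty J›
  rw [mem_St] at hp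
  simp_rw [← card_sigma]
  symm
  refine card_bij (fun y _ => fun i => y.2.2 (0, i)) ?_ ?_ ?_
  · rintro ⟨n, δ, e⟩ hy
    simp only [mem_sigma, mem_blockEmbs] at hy
    obtain ⟨-, -, he, hext⟩ := hy
    refine mem_embs.2 ⟨he.comp (Prod.mk_right_injective 0), ?_⟩
    have := hext.2.comp (hom_blockNb τ nbJ n 0)
    simpa [Function.comp_def] using this
  · rintro ⟨n, δ, e⟩ hy ⟨n', δ', e'⟩ hy' h
    simp only [mem_sigma, mem_blockEmbs] at hy hy'
    obtain ⟨-, -, he, hext⟩ := hy
    obtain ⟨-, -, he', hext'⟩ := hy'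
    have h0 : ∀ i, e (0, i) = e' (0, i) := congrFun h
    have hn : n = n' := by
      by_contra hne
      rcases Nat.lt_or_gt_of_ne hne with hlt | hlt
      · have h1 := ext_block_last hext i₀
        have h2 := ext_block_apply hext' ⟨n + 1, by omega⟩ i₀
        rw [h0, h0] at h1
        have h3 := he' (h2.trans h1)
        simp [Fin.ext_iff] at h3
      · have h1 := ext_block_last hext' i₀
        have h2 := ext_block_apply hext ⟨n' + 1, by omega⟩ i₀
        rw [← h0, ← h0] at h1
        have h3 := he (h2.trans h1)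
        simp [Fin.ext_iff] at h3
    subst hn
    have hδ : δ = δ' := by
      ext i
      have h1 := ext_block_last hext i
      have h2 := ext_block_last hext' i
      rw [h0, h0] at h1
      exact (Prod.mk.inj (he' (h1.symm.trans h2))).2
    subst hδ
    have hee : e = e' := by
      funext ⟨a, i⟩
      rw [ext_block_apply hext, ext_block_apply hext', h0]
    rw [hee]
  · intro e₀ he₀
    obtain ⟨hinj, hhom⟩ := mem_embs.1 he₀
    have hex : ∃ n, (p.1 ^ (n + 1)) (e₀ i₀) ∈ Set.range e₀ := by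
      refine ⟨orderOf p.1 - 1, i₀, ?_⟩
      rw [Nat.sub_add_cancel (orderOf_pos p.1), pow_orderOf_eq_one]
      rfl
    set n := Nat.find hex with hn
    have hall : ∀ i, (p.1 ^ (n + 1)) (e₀ i) ∈ Set.range e₀ :=
      pow_mem_range hc hp.2 hhom _ (Nat.find_spec hex)
    choose d hd using hall
    have hdinj : Injective d := by
      intro i i' hii'
      apply hinj
      apply (p.1 ^ (n + 1)).injective
      rw [← hd, ← hd, hii']
    let δ : Perm J := Equiv.ofBijective d (Finite.injective_iff_bijective.1 hdinj)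
    let e : Fin (n + 1) × J → S := fun b => (p.1 ^ (b.1 : ℕ)) (e₀ b.2)
    have key : ∀ (a b : Fin (n + 1)) (i i' : J), a ≤ b → e (a, i) = e (b, i') →
        (a, i) = (b, i') := by
      intro a b i i' hab h
      obtain ⟨c, hc'⟩ := Nat.exists_eq_add_of_le (show (a : ℕ) ≤ b from hab)
      simp only [e, hc', pow_add, Perm.mul_apply] at h
      have h1 := (p.1 ^ (a : ℕ)).injective h
      rcases c with _ | c
      · have : a = b := Fin.ext (by omega)
        have h2 : i = i' := hinj (by simpa using h1)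
        rw [this, h2]
      · exfalso
        have h2 := pow_mem_range hc hp.2 hhom (c + 1) ⟨i, h1⟩ i₀
        have h3 := Nat.find_min' hex h2
        have := b.isLt
        omega
    have heinj : Injective e := by
      rintro ⟨a, i⟩ ⟨b, i'⟩ h
      rcases le_total a b with hab | hab
      · exact key a b i i' hab h
      · exact (key b a i' i hab h.symm).symm
    refine ⟨⟨n, δ, e⟩, ?_, ?_⟩
    · simp only [mem_sigma, mem_blockEmbs, mem_range, mem_auts]
      refine ⟨?_, ?_, heinj, ?_, ?_⟩
      · have h1 := Fintype.card_le_of_injective _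
          (heinj.comp (Prod.mk_left_injective i₀) : Injective fun a : Fin (n + 1) => e (a, i₀))
        simpa using h1
      · refine Hom.of_comp hinj hhom ?_
        have h1 := (hp.2.pow (n + 1)).comp hhom
        have h2 : e₀ ∘ δ = (p.1 ^ (n + 1) : Perm S) ∘ e₀ := funext hd
        simpa [h2] using h1
      · rintro ⟨a, i⟩
        change _ = e (blockPerm n δ _)
        induction a using Fin.lastCases with
        | last =>
          rw [blockPerm_last]
          simp only [e, Fin.val_last, Fin.val_zero, pow_zero, Perm.one_apply]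
          change _ = e₀ (d i)
          rw [hd]
          simp [pow_succ']
        | cast a =>
          rw [blockPerm_castSucc]
          simp [e, pow_succ']
      · rintro ⟨a, i⟩
        change p.2 (e (a, i)) = (blockNb τ nbJ n (a, i)).image _
        rw [hom_blockNb τ nbJ n a i, image_image, Sum.map_comp_map]
        exact ((hp.2.pow a).comp hhom) i
    · funext i
      simp [e]

theorem sum_wt_embs [Nonempty J] (x : K) (τ : Perm T) {nbJ : J → Finset (T ⊕ J)} (hJ : Pre nbJ)
    (hc : Conn nbJ) {d : ℕ} (hd : td nbJ = 2 * d) :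
    ∑ p ∈ St τ S, wt x p * ((embs nbJ p.2).card : K) =
      ∑ n ∈ range (Fintype.card S),
        ((Fintype.card S).descFactorial ((n + 1) * Fintype.card J) : K) *
          ((-1) ^ (n * Fintype.card J) *
            (∑ δ ∈ auts (τ ^ (n + 1)) nbJ, ((Perm.sign δ : ℤ) : K)) * x ^ ((n + 1) * d)) *
          Wn x τ (Fintype.card S - (n + 1) * Fintype.card J) := by
  classical
  have h1 : ∀ p ∈ St τ S, wt x p * ((embs nbJ p.2).card : K) =
      ∑ n ∈ range (Fintype.card S), ∑ δ ∈ auts (τ ^ (n + 1)) nbJ,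
        ∑ e ∈ univ.filter (fun e : Fin (n + 1) × J → S => Injective e),
          if Ext e (block τ nbJ n δ) p then wt x p else 0 := by
    intro p hp
    rw [card_embs_eq hc hp]
    push_cast
    rw [mul_sum]
    refine sum_congr rfl fun n _ => ?_
    rw [mul_sum]
    refine sum_congr rfl fun δ _ => ?_
    rw [← sum_filter, filter_filter, sum_const, nsmul_eq_mul, mul_comm]
    rfl
  rw [sum_congr rfl h1, sum_comm]
  refine sum_congr rfl fun n _ => ?_
  rw [sum_comm, mul_sum, sum_mul, mul_sum, sum_mul]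
  refine sum_congr rfl fun δ hδ => ?_
  rw [sum_comm]
  have h2 : ∀ e ∈ univ.filter (fun e : Fin (n + 1) × J → S => Injective e),
      ∑ p ∈ St τ S, (if Ext e (block τ nbJ n δ) p then wt x p else 0) =
        wt x (block τ nbJ n δ) * Wn x τ (Fintype.card S - (n + 1) * Fintype.card J) := by
    intro e he
    have hev : Even (td (block τ nbJ n δ).2) := by
      change Even (td (blockNb τ nbJ n))
      rw [td_blockNb, hd]
      exact (even_two_mul d).mul_left _
    have := sum_ext x (block_mem_St hJ hδ) hev (mem_filter.1 he).2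
    simpa using this
  rw [sum_congr rfl h2, sum_const, nsmul_eq_mul, wt_block x τ hd]
  have h3 : (univ.filter (fun e : Fin (n + 1) × J → S => Injective e)).card =
      (Fintype.card S).descFactorial ((n + 1) * Fintype.card J) := by
    rw [← Fintype.card_subtype, Fintype.card_congr (Equiv.subtypeInjectiveEquivEmbedding _ _),
      Fintype.card_embedding_eq]
    simp
  rw [h3]
  ring

end Pool.Agent.MP_5f0aae_co
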