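import Pool.Agent.MP_5f0aae_co.Models

/-! Counting darts through embedded paths and cycles; signs of the automorphisms of the models. -/

namespace Pool.Agent.MP_5f0aae_co

open Finset Equiv Function Sum

variable {T S : Type} [DecidableEq T] [DecidableEq S] [Fintype T] [Fintype S]

def validPairs (T : Type) [DecidableEq T] [Fintype T] (m : ℕ) : Finset (T × T) :=
  univ.filter fun y => m = 0 → y.1 ≠ y.2

theorem mem_validPairs {m : ℕ} {y : T × T} : y ∈ validPairs T m ↔ (m = 0 → y.1 ≠ y.2) := by
  simp [validPairs]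

theorem count_darts {nb : S → Finset (T ⊕ S)} (hp : Pre nb) :
    2 * Fintype.card S =
      ∑ m ∈ range (Fintype.card S), ∑ y ∈ validPairs T m,
          (m + 1) * (embs (pathNb m y.1 y.2) nb).card +
        ∑ m ∈ range (Fintype.card S), (embs (cycNb T m) nb).card := by
  let A : Finset (Σ m : ℕ, Σ _ : T × T, ℕ × (Fin (m + 1) → S)) :=
    (range (Fintype.card S)).sigma fun m => (validPairs T m).sigma fun y =>
      range (m + 1) ×ˢ embs (pathNb m y.1 y.2) nb
  let B : Finset (Σ m : ℕ, (ZMod (m + 3) → S)) :=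
    (range (Fintype.card S)).sigma fun m => embs (cycNb T m) nb
  let D : Finset ((T ⊕ S) × (T ⊕ S)) :=
    (univ.sigma nb).image fun d => (d.2, inr d.1)
  have hD : D.card = 2 * Fintype.card S := by
    rw [card_image_of_injective, card_sigma]
    · simp [hp.card, mul_comm]
    · rintro ⟨v, a⟩ ⟨v', a'⟩ h
      simp only [Prod.mk.injEq, inr.injEq] at h
      rw [h.1, h.2]
  have hmemD : ∀ d, d ∈ D ↔ ∃ v, d.2 = inr v ∧ d.1 ∈ nb v := by
    rintro ⟨a, b⟩
    simp only [D, mem_image, mem_sigma, mem_univ, true_and, Prod.mk.injEq]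
    constructor
    · rintro ⟨⟨v, a'⟩, h1, rfl, rfl⟩
      exact ⟨v, rfl, h1⟩
    · rintro ⟨v, rfl, h⟩
      exact ⟨⟨v, a⟩, h, rfl, rfl⟩
  have hA : A.card = ∑ m ∈ range (Fintype.card S), ∑ y ∈ validPairs T m,
      (m + 1) * (embs (pathNb m y.1 y.2) nb).card := by
    simp [A, card_sigma]
  have hB : B.card = ∑ m ∈ range (Fintype.card S), (embs (cycNb T m) nb).card := by
    simp [B, card_sigma]
  rw [← hD, ← hA, ← hB, ← card_disjSum]
  symm
  refine card_bij (fun y _ => Sum.elim
    (fun y => (pathWalk y.2.1.1 y.2.1.2 y.2.2.2 y.2.2.1,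
      pathWalk y.2.1.1 y.2.1.2 y.2.2.2 (y.2.2.1 + 1)))
    (fun y => (inr (y.2 0), inr (y.2 1))) y) ?_ ?_ ?_
  · rintro (⟨m, ⟨α, β⟩, i, e⟩ | ⟨m, e⟩) hy
    · simp only [A, inl_mem_disjSum, mem_sigma, mem_product, mem_range, mem_embs] at hy
      obtain ⟨w, hw1, hw⟩ := hom_path_iff.1 hy.2.2.2.2 i hy.2.2.1
      exact (hmemD _).2 ⟨w, hw1, by simp [hw]⟩
    · simp only [B, inr_mem_disjSum, mem_sigma, mem_range, mem_embs] at hy
      refine (hmemD _).2 ⟨e 1, rfl, hy.2.2.inr_mem ?_⟩
      simp [cycNb]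
  · rintro (⟨m, ⟨α, β⟩, i, e⟩ | ⟨m, e⟩) hy (⟨m', ⟨α', β'⟩, i', e'⟩ | ⟨m', e'⟩) hy' h
    · simp only [A, inl_mem_disjSum, mem_sigma, mem_product, mem_range, mem_embs] at hy hy'
      simp only [Sum.elim_inl, Prod.mk.injEq] at h
      obtain ⟨-, -, hi, -, he⟩ := hy
      obtain ⟨-, -, hi', -, he'⟩ := hy'
      have key : i = i' ∧ α = α' ∧ e 0 = e' 0 := by
        rcases le_total i i' with hle | hle
        · exact path_det_pos hp he he' hi hi' hle h.1 h.2
        · obtain ⟨h1, h2, h3⟩ := path_det_pos hp he' he hi' hi hle h.1.symm h.2.symm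
          exact ⟨h1.symm, h2.symm, h3.symm⟩
      obtain ⟨rfl, rfl, h0⟩ := key
      obtain rfl : m = m' :=
        le_antisymm (path_det_length hp he' he h0.symm) (path_det_length hp he he' h0)
      obtain ⟨rfl, rfl⟩ := path_det hp he he' h0
      rfl
    · simp only [A, B, inl_mem_disjSum, inr_mem_disjSum, mem_sigma, mem_product, mem_range,
        mem_embs] at hy hy'
      simp only [Sum.elim_inl, Sum.elim_inr, Prod.mk.injEq] at h
      exact (path_ne_cyc hp hy.2.2.2.2 hy'.2.2 hy.2.2.1 h.1 h.2).elim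
    · simp only [A, B, inl_mem_disjSum, inr_mem_disjSum, mem_sigma, mem_product, mem_range,
        mem_embs] at hy hy'
      simp only [Sum.elim_inl, Sum.elim_inr, Prod.mk.injEq] at h
      exact (path_ne_cyc hp hy'.2.2.2.2 hy.2.2 hy'.2.2.1 h.1.symm h.2.symm).elim
    · simp only [B, inr_mem_disjSum, mem_sigma, mem_range, mem_embs] at hy hy'
      simp only [Sum.elim_inr, Prod.mk.injEq, inr.injEq] at h
      obtain rfl : m = m' :=
        le_antisymm (cyc_det_length hp hy'.2.2 hy.2.2 hy.2.1 h.1.symm h.2.symm)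
          (cyc_det_length hp hy.2.2 hy'.2.2 hy'.2.1 h.1 h.2)
      obtain rfl := cyc_det hp hy.2.2 hy'.2.2 h.1 h.2
      rfl
  · rintro ⟨a, b⟩ hd
    obtain ⟨v, rfl, ha⟩ := (hmemD _).1 hd
    simp only at ha
    obtain ⟨c, hc⟩ := exists_other hp ha
    have hcv : c ∈ nb v := by simp [hc]
    obtain ⟨r, hr0, hr1, hr⟩ := walk_cases hp hcv
    have hr2 : Loc nb r 0 → r 2 = a := by
      rintro ⟨w, hw1, hw⟩
      obtain rfl : w = v := inr_injective (hw1.symm.trans hr1)
      refine pair_right_cancel (a := c) ?_ (by rw [← hr0, ← hw]; exact hp.card w)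
      rw [pair_comm c a, ← hc, hw, hr0]
    rcases hr with hr | ⟨L, α, hr, hl⟩
    · obtain ⟨m, e, he1, he2, he3⟩ := exists_cyc_of_walk hp hr
      have hinj : Injective (e ∘ fun z => 2 - z) := he1.comp sub_right_injective
      refine ⟨inr ⟨m, e ∘ fun z => 2 - z⟩, ?_, ?_⟩
      · simp only [B, inr_mem_disjSum, mem_sigma, mem_range, mem_embs]
        refine ⟨?_, hinj, he2.comp (hom_cyc_refl id m 2)⟩
        have := Fintype.card_le_of_injective _ he1
        rw [ZMod.card] at this
        omega
      · have h1 := he3 1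
        have h2 := he3 2
        simp only [Sum.elim_inr, Function.comp_apply, sub_zero, Prod.mk.injEq]
        refine ⟨by rw [← hr2 (hr 0), ← h2]; simp, ?_⟩
        rw [← hr1, ← h1]
        norm_num
    · obtain ⟨w, hw1, hw⟩ := hr L (by omega)
      obtain ⟨m, β, e, he1, he2, he3, he4⟩ :=
        exists_path_of_dart hp (α := α) (v := w) (by simp [hw, hl])
      have hloc : ∀ k < L + 1, Loc nb (fun k => r (L + 2 - k)) k := by
        intro k hk
        obtain ⟨u, hu1, hu⟩ := hr (L - k) (by omega)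
        refine ⟨u, ?_, ?_⟩
        · change r (L + 2 - (k + 1)) = _
          rw [← hu1]
          congr 1
          omega
        · change _ = {r (L + 2 - k), r (L + 2 - (k + 2))}
          rw [hu, pair_comm]
          congr 3 <;> omega
      have hfw := fun c (h1 : c ≤ m + 1) (h2 : c ≤ L + 1) =>
        fwd hp (q := pathWalk α β e) (r := fun k => r (L + 2 - k)) hl.symm
          (by rw [pathWalk_succ α β e (Nat.succ_pos m)]
              exact (congrArg inr he4).trans hw1.symm) c
          (fun k hk => hom_path_iff.1 he2 k (by omega)) (fun k hk => hloc k (by omega))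
      have hLm : L ≤ m := by
        by_contra hlt
        have h1 := (hfw (m + 1) le_rfl (by omega)).2
        obtain ⟨u, hu1, -⟩ := hr (L - m - 1) (by omega)
        rw [pathWalk_last, show L + 2 - (m + 1 + 1) = L - m - 1 + 1 by omega, hu1] at h1
        simp at h1
      refine ⟨inl ⟨m, (α, β), L, e⟩, ?_, ?_⟩
      · simp only [A, inl_mem_disjSum, mem_sigma, mem_product, mem_range, mem_embs, mem_validPairs]
        refine ⟨?_, he3, by omega, he1, he2⟩
        simpa using Fintype.card_le_of_injective _ he1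
      · have h1 := hfw L (by omega) (by omega)
        simp only [Sum.elim_inl, Prod.mk.injEq]
        rw [h1.1, h1.2, ← hr2 (hr 0 (by omega)), ← hr1]
        constructor <;> congr 1 <;> omega

section Signs

variable {K : Type*} [Field K]

theorem sign_revPerm (j : ℕ) : Perm.sign (Fin.revPerm : Perm (Fin j)) = (-1) ^ (j / 2) := by
  rw [Perm.sign_eq_prod_prod_Iio]
  have h1 : ∀ i : Fin j, ∏ k ∈ Iio i, (if Fin.revPerm k < Fin.revPerm i then (1 : ℤˣ) else -1) =
      (-1) ^ (i : ℕ) := by
    intro i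
    rw [prod_congr rfl (g := fun _ => -1), prod_const, Fin.card_Iio]
    intro k hk
    rw [if_neg]
    simpa using (mem_Iio.1 hk).le
  simp only [h1]
  rw [Fin.prod_univ_eq_prod_range (fun i => (-1 : ℤˣ) ^ i)]
  induction j with
  | zero => simp
  | succ j ih =>
    rw [prod_range_succ, ih fun i => ?_]
    · rw [← pow_add]
      rcases Nat.even_or_odd' j with ⟨k, rfl | rfl⟩
      · rw [show (2 * k + 1) / 2 = k by omega, show 2 * k / 2 = k by omega, pow_add, pow_mul]
        simp
      · rw [show (2 * k + 1 + 1) / 2 = k + 1 by omega, show (2 * k + 1) / 2 = k by omega,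
          pow_add, pow_succ, pow_succ, pow_mul]
        simp
    · rw [prod_congr rfl (g := fun _ => -1), prod_const, Fin.card_Iio]
      intro k hk
      rw [if_neg]
      simpa using (mem_Iio.1 hk).le

omit [DecidableEq T] [Fintype T] in
theorem inl_eq_pathSeq {m : ℕ} {α β γ : T} {k : ℕ} :
    inl γ = pathSeq m α β k ↔ (k = 0 ∧ γ = α) ∨ (m + 2 ≤ k ∧ γ = β) := by
  unfold pathSeq
  split_ifs with h1 h2
  · simp [h1]
  · simp only [false_iff]
    omega
  · simp only [inl.injEq, h1, false_and, false_or]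
    exact (and_iff_right (by omega)).symm

omit [Fintype T] in
theorem sum_sign_path (φ : Perm T) {m : ℕ} {α β : T} (h : m = 0 → α ≠ β) :
    ∑ δ ∈ auts φ (pathNb m α β), ((Perm.sign δ : ℤ) : K) =
      (if φ α = α ∧ φ β = β then 1 else 0) +
        (if φ α = β ∧ φ β = α then (-1) ^ ((m + 1) / 2) else 0) := by
  classical
  have hp := pre_pathNb h
  have hmem : ∀ δ : Perm (Fin (m + 1)), δ ∈ auts φ (pathNb m α β) ↔
      (δ = 1 ∧ φ α = α ∧ φ β = β) ∨ (δ = Fin.revPerm ∧ φ α = β ∧ φ β = α) := by
    intro δ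
    rw [mem_auts]
    constructor
    · intro hδ
      have h1 : Hom id δ (pathNb m (φ α) (φ β)) (pathNb m α β) := by
        have h2 := hδ.comp (hom_path_map φ.symm m (φ α) (φ β) |>.comp (Hom.refl _) |> fun h => by
          simpa using h)
        simpa using h2
      have h2 : inl (φ α) ∈ pathNb m α β (δ 0) := hδ.inl_mem (by simp [pathNb])
      simp only [pathNb, mem_insert, mem_singleton, inl_eq_pathSeq] at h2
      have h3 : (φ α = α ∧ δ 0 = 0) ∨ (φ α = β ∧ δ 0 = Fin.rev 0) := by
        have hδ0 := (δ 0).isLt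
        rcases h2 with (⟨h, h'⟩ | ⟨h, h'⟩) | (⟨h, h'⟩ | ⟨h, h'⟩)
        · exact Or.inl ⟨h', Fin.ext h⟩
        · omega
        · omega
        · refine Or.inr ⟨h', Fin.ext ?_⟩
          simp only [Fin.val_rev, Fin.val_zero]
          omega
      rcases h3 with ⟨h3, h4⟩ | ⟨h3, h4⟩
      · rw [h3] at h1
        obtain ⟨h5, h6⟩ := path_det hp h1 (Hom.refl _) h4
        exact Or.inl ⟨Equiv.ext (congrFun h6), h3, h5⟩
      · rw [h3] at h1
        obtain ⟨h5, h6⟩ := path_det hp h1 (hom_path_rev m α β) h4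
        exact Or.inr ⟨Equiv.ext (congrFun h6), h3, h5⟩
    · rintro (⟨rfl, h1, h2⟩ | ⟨rfl, h1, h2⟩)
      · have := hom_path_map φ m α β
        rwa [h1, h2] at this
      · have := hom_path_map φ m α β
        rw [h1, h2] at this
        exact (hom_path_rev m α β).comp this
  by_cases h1 : φ α = α ∧ φ β = β <;> by_cases h2 : φ α = β ∧ φ β = α
  · have hne : (1 : Perm (Fin (m + 1))) ≠ Fin.revPerm := by
      intro he
      have h3 := congrArg (fun δ : Perm (Fin (m + 1)) => ((δ 0 : Fin (m + 1)) : ℕ)) he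
      simp at h3
      exact h h3.symm (h1.1.symm.trans h2.1)
    have : auts φ (pathNb m α β) = {1, Fin.revPerm} := by
      ext δ
      rw [hmem, and_iff_left h1, and_iff_left h2]
      simp
    rw [this, sum_pair hne, if_pos h1, if_pos h2, sign_revPerm]
    simp
  · have : auts φ (pathNb m α β) = {1} := by
      ext δ
      simp only [hmem, h2, and_false, or_false, mem_singleton]
      simp [h1]
    rw [this, if_pos h1, if_neg h2]
    simp
  · have : auts φ (pathNb m α β) = {Fin.revPerm} := by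
      ext δ
      simp only [hmem, h1, and_false, false_or, mem_singleton]
      simp [h2]
    rw [this, if_neg h1, if_pos h2, sum_singleton, sign_revPerm]
    simp
  · have : auts φ (pathNb m α β) = ∅ := by
      ext δ
      simp only [hmem, h1, h2, and_false, or_false]
      simp
    rw [this, if_neg h1, if_neg h2]
    simp

theorem sign_addLeft_one (m : ℕ) :
    Perm.sign (Equiv.addLeft (1 : ZMod (m + 3))) = (-1) ^ m := by
  have : Equiv.addLeft (1 : ZMod (m + 3)) = finRotate (m + 3) := by
    refine Equiv.ext fun z => ?_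
    refine Eq.trans ?_ (finRotate_apply (n := m + 3) z).symm
    exact add_comm (1 : ZMod (m + 3)) z
  have h2 := sign_finRotate (m + 3)
  rw [← this] at h2
  refine h2.trans ?_
  simp [pow_add]

theorem sign_addLeft (m : ℕ) (c : ZMod (m + 3)) :
    Perm.sign (Equiv.addLeft c) = ((-1) ^ m) ^ c.val := by
  have : Equiv.addLeft c = Equiv.addLeft (1 : ZMod (m + 3)) ^ c.val := by
    have key : ∀ k : ℕ, Equiv.addLeft (1 : ZMod (m + 3)) ^ k =
        Equiv.addLeft (k : ZMod (m + 3)) := by
      intro k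
      induction k with
      | zero => ext z; simp
      | succ k ih => rw [pow_succ, ih]; ext z; simp
    rw [key]
    simp
  rw [this, map_pow, sign_addLeft_one]

theorem sign_subLeft_neg_one (m : ℕ) :
    Perm.sign (Equiv.subLeft (-1 : ZMod (m + 3))) = (-1) ^ ((m + 3) / 2) := by
  have : Equiv.subLeft (-1 : ZMod (m + 3)) = (Fin.revPerm : Perm (Fin (m + 3))) := by
    ext z
    have h1 : ((Fin.rev z : Fin (m + 3)) : ZMod (m + 3)) =
        ((m + 3 - (ZMod.val z + 1) : ℕ) : ZMod (m + 3)) := by
      rw [← ZMod.natCast_zmod_val (n := m + 3) (Fin.rev z)]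
      rfl
    change (-1 : ZMod (m + 3)) - z = Fin.rev z
    rw [h1, Nat.cast_sub (ZMod.val_lt z), ZMod.natCast_self]
    simp
    ring
  have h2 := sign_revPerm (m + 3)
  rw [← this] at h2
  exact h2

omit [Fintype T] in
theorem sum_sign_cyc (φ : Perm T) (m : ℕ) :
    ∑ δ ∈ auts φ (cycNb T m), ((Perm.sign δ : ℤ) : K) =
      if (m + 3) % 4 = 1 then 2 * ((m + 3 : ℕ) : K) else 0 := by
  classical
  have hp := pre_cycNb (T := T) m
  have hA : auts φ (cycNb T m) =
      univ.image (fun c : ZMod (m + 3) => Equiv.addLeft c) ∪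
        univ.image (fun c : ZMod (m + 3) => Equiv.addLeft c * Equiv.subLeft (-1)) := by
    ext δ
    simp only [mem_auts, mem_union, mem_image, mem_univ, true_and]
    constructor
    · intro hδ
      have h1 : inr (δ 1) ∈ cycNb T m (δ 0) := hδ.inr_mem (by simp [cycNb])
      simp only [cycNb, mem_insert, mem_singleton, inr.injEq] at h1
      rcases h1 with h1 | h1
      · refine Or.inr ⟨δ 0 + 1, Equiv.ext fun z => ?_⟩
        have := congrFun (cyc_det hp hδ (hom_cyc_refl id m (δ 0)) (by simp) h1) z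
        simp only [Perm.mul_apply, Equiv.subLeft_apply, Equiv.coe_addLeft, this]
        ring
      · refine Or.inl ⟨δ 0, Equiv.ext fun z => ?_⟩
        have := congrFun (cyc_det hp hδ (hom_cyc_rot id m (δ 0)) (by simp) h1) z
        simp [this]
    · rintro (⟨c, rfl⟩ | ⟨c, rfl⟩)
      · exact hom_cyc_rot φ m c
      · exact (hom_cyc_rot φ m c).comp (hom_cyc_refl id m (-1))
  have hinj : Injective fun c : ZMod (m + 3) => Equiv.addLeft c := fun c c' h => by
    simpa using congrArg (fun δ : Perm (ZMod (m + 3)) => δ 0) h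
  rw [hA, sum_union, sum_image hinj.injOn, sum_image]
  · simp only [map_mul, sign_addLeft, sign_subLeft_neg_one, Units.val_mul, Int.cast_mul]
    rw [← sum_mul]
    have hs : ∑ c : ZMod (m + 3), ((((((-1) ^ m) ^ c.val : ℤˣ)) : ℤ) : K) =
        ∑ i ∈ range (m + 3), ((-1) ^ m) ^ i := by
      rw [← Fin.sum_univ_eq_sum_range]
      refine sum_congr rfl fun c _ => ?_
      simp
      rfl
    rw [hs]
    rcases Nat.even_or_odd m with hm | hm
    · rw [hm.neg_one_pow]
      simp only [one_pow, sum_const, card_range, nsmul_eq_mul, mul_one]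
      obtain ⟨k, hk⟩ := hm
      split_ifs with h4
      · have : Even ((m + 3) / 2) := by rw [Nat.even_iff]; omega
        rw [this.neg_one_pow]
        simp
        ring
      · have : Odd ((m + 3) / 2) := by rw [Nat.odd_iff]; omega
        rw [this.neg_one_pow]
        simp
    · rw [hm.neg_one_pow, neg_one_geom_sum, if_pos (hm.add_odd (by decide)), if_neg]
      · simp
      · obtain ⟨k, hk⟩ := hm
        omega
  · intro c _ c' _ h
    exact hinj (mul_right_cancel h)
  · rw [disjoint_left]
    intro δ h1 h2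
    simp only [mem_image, mem_univ, true_and] at h1 h2
    obtain ⟨c, rfl⟩ := h1
    obtain ⟨c', h⟩ := h2
    have h0 := congrArg (fun δ : Perm (ZMod (m + 3)) => δ 0) h
    have h1 := congrArg (fun δ : Perm (ZMod (m + 3)) => δ 1) h
    simp only [Perm.mul_apply, Equiv.subLeft_apply, Equiv.coe_addLeft] at h0 h1
    exact zmod_two_ne_zero m (by linear_combination h0 - h1)

end Signs

end Pool.Agent.MP_5f0aae_co
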