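import Mathlib

namespace Pool.Agent.MP_5f0aae_co

open PowerSeries Finset

/-- The number of isomorphism classes of graphs with `p` points, `q` lines and no point of
degree two. -/
noncomputable def hcount (p q : ℕ) : ℕ :=
  Nat.card (Quot fun G H : {G : SimpleGraph (Fin p) //
    (∀ v, (G.neighborSet v).ncard ≠ 2) ∧ G.edgeSet.ncard = q} => Nonempty (G.1 ≃g H.1))

/-- The term of the cycle index of the pair group for a permutation of `t` points with `c k`
cycles of length `k`; `F` is put in for ordinary orbits of pairs, `G` for the orbits of antipodal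
pairs and `L` for the cycles of points. -/
def pairTerm {M : Type*} [CommMonoid M] (t : ℕ) (c : ℕ → ℕ) (F G L : ℕ → M) : M :=
  ∏ k ∈ Icc 1 t,
    (F k ^ ((k - 1) / 2) * (if Even k then G (k / 2) else 1) * L k) ^ c k *
      F k ^ (k * (c k).choose 2) * ∏ r ∈ Ico 1 k, F (Nat.lcm r k) ^ (Nat.gcd r k * c r * c k)

/-- The order of the centralizer of a permutation with `c k` cycles of length `k`. -/
def zee (t : ℕ) (c : ℕ → ℕ) : ℕ := ∏ k ∈ Icc 1 t, k ^ c k * (c k).factorial

variable {K : Type*} [Field K]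

/-- The monomial `e ^ (j / 2) * x ^ (k * (j + 1)) * y ^ (k * j)`. -/
noncomputable def mon (e x : K) (k j : ℕ) : K⟦X⟧ :=
  C (e ^ (j / 2) * x ^ (k * (j + 1))) * X ^ (k * j)

/-- The figure series for pairs of points. -/
noncomputable def pairFig (e x : K) (N k : ℕ) : K⟦X⟧ :=
  (1 + C (x ^ k)) * ∏ j ∈ Icc 1 N, if Odd j then 1 - mon e x k j else (1 - mon e x k j)⁻¹

/-- The figure series for points. -/
noncomputable def loopFig (x : K) (N k : ℕ) : K⟦X⟧ :=
  ∏ j ∈ Icc 2 N,
    if j % 4 = 1 then 1 - mon 1 x k j else if j % 4 = 0 then (1 - mon 1 x k j)⁻¹ else 1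

/-- The factor for cycles. -/
noncomputable def cycFig (x : K) (N : ℕ) : K⟦X⟧ :=
  ∏ j ∈ Icc 3 N, if j % 4 = 1 then 1 - C (x ^ j) * X ^ j else 1

end Pool.Agent.MP_5f0aae_co
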