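import Pool.Agent.MP_5f0aae_co.Graph

/-! Inclusion-exclusion over the points of degree two, and the closed form. -/

namespace Pool.Agent.MP_5f0aae_co

open Finset Equiv Function Sum PowerSeries

variable {V T : Type} {K : Type*} [Field K]

/-- The series that belongs to a cycle type. -/
noncomputable def typeSeries (x : K) (N t : ℕ) (M : Multiset ℕ) : K⟦X⟧ :=
  cycFig x N * pairTerm t (fun k => M.count k) (pairFig 1 x N) (pairFig (-1) x N) (loopFig x N)

open Classical in
theorem coeff_typeSeries [CharZero K] [Fintype T] [DecidableEq T] (x : K) (τ : Perm T) {N s : ℕ}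
    (hs : s ≤ N) : coeff s (typeSeries x N (Fintype.card T) τ.partition.parts) =
      (∑ G ∈ univ.filter (GInv τ), x ^ ne G) * aCoef x τ s := by
  have h1 := pairTerm_mul (Fintype.card T) (fun k => τ.partition.parts.count k)
    (fun k => C (1 + x ^ k)) (fun k => C (1 + x ^ k)) (fun _ => C 1)
    (pathFig 1 x N) (pathFig (-1) x N) (loopFig x N)
  have h2 := map_pairTerm (C (R := K)).toMonoidHom (Fintype.card T)
    (fun k => τ.partition.parts.count k) (fun k => 1 + x ^ k) (fun k => 1 + x ^ k) fun _ => 1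
  simp only [RingHom.toMonoidHom_eq_coe, MonoidHom.coe_coe] at h2
  have h3 : ∀ e : K, pairFig e x N = fun k => C (1 + x ^ k) * pathFig e x N k := fun e => by
    funext k
    simp [pairFig, pathFig]
  have h4 : loopFig x N = fun k => C 1 * loopFig x N k := by simp
  rw [typeSeries, h3, h3, h4, h1, ← h2, mul_left_comm, coeff_C_mul, coeff_Spart x τ hs,
    sum_inv_graphs]

open Classical in
theorem sum_over_subset [CharZero K] [Fintype V] [DecidableEq V] (x : K) (A : Finset V) {N p : ℕ}
    (hA : A.card ≤ N) (hp : Fintype.card V = p) :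
    ∑ σ : Perm V, sgnOn K σ A * ∑ G ∈ univ.filter (fun G : SimpleGraph V =>
        GInv σ G ∧ ∀ v ∈ A, dg G v = 2), x ^ ne G =
      (A.card.factorial : K) * (p - A.card).factorial *
        ∑ lam : Nat.Partition (p - A.card),
          ((zee (p - A.card) fun k => lam.parts.count k : ℕ) : K)⁻¹ *
            coeff A.card (typeSeries x N (p - A.card) lam.parts) := by
  subst hp
  let S := {v // v ∈ A}
  let T := {v // v ∉ A}
  have hS : Fintype.card S = A.card := Fintype.card_coe A
  have hT : Fintype.card T = Fintype.card V - A.card := by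
    rw [← hS]
    exact Fintype.card_subtype_compl _
  let ε : T ⊕ S ≃ V := (Equiv.sumComm T S).trans (Equiv.sumCompl fun v => v ∈ A)
  have hε : ∀ (τ : Perm T) (ρ : Perm S) (z : T ⊕ S),
      ρ.subtypeCongr τ (ε z) = ε (Perm.sumCongr τ ρ z) := by
    rintro τ ρ (a | v)
    · exact Perm.subtypeCongr.right_apply_subtype ρ τ a
    · exact Perm.subtypeCongr.left_apply_subtype ρ τ v
  have hinv : ∀ (τ : Perm T) (ρ : Perm S), Inv (ρ.subtypeCongr τ) A := by
    intro τ ρ v
    by_cases hv : v ∈ A
    · rw [Perm.subtypeCongr.left_apply _ _ hv]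
      exact iff_of_true (ρ ⟨v, hv⟩).2 hv
    · rw [Perm.subtypeCongr.right_apply _ _ hv]
      exact iff_of_false (τ ⟨v, hv⟩).2 hv
  have h1 : ∀ F : Perm V → K, ∑ σ : Perm V, sgnOn K σ A * F σ =
      ∑ τ : Perm T, ∑ ρ : Perm S,
        (-1) ^ A.card * (((Perm.sign ρ : ℤ) : K) * F (ρ.subtypeCongr τ)) := by
    intro F
    rw [← sum_filter_of_ne (p := fun σ => Inv σ A), ← Fintype.sum_prod_type']
    · symm
      refine sum_bij (fun y _ => y.2.subtypeCongr y.1) ?_ ?_ ?_ ?_
      · exact fun y _ => mem_filter.2 ⟨mem_univ _, hinv y.1 y.2⟩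
      · intro y _ y' _ h
        have := Perm.subtypeCongrHom_injective (fun v => v ∈ A) (a₁ := (y.2, y.1))
          (a₂ := (y'.2, y'.1)) h
        exact Prod.ext (Prod.mk.inj this).2 (Prod.mk.inj this).1
      · intro σ hσ
        have h := (mem_filter.1 hσ).2
        refine ⟨(σ.subtypePerm fun v => (h v).not, σ.subtypePerm h), mem_univ _, ?_⟩
        ext v
        by_cases hv : v ∈ A
        · rw [Perm.subtypeCongr.left_apply _ _ hv]
          rfl
        · rw [Perm.subtypeCongr.right_apply _ _ hv]
          rfl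
      · intro y _
        have : (y.2.subtypeCongr y.1).subtypePerm (hinv y.1 y.2) = y.2 := by
          ext v
          exact Perm.subtypeCongr.left_apply_subtype y.2 y.1 v
        rw [sgnOn, dif_pos (hinv y.1 y.2), this, mul_assoc]
    · intro σ _ h
      by_contra h'
      exact h (by rw [sgnOn, dif_neg h', zero_mul])
  have h2 : ∀ (τ : Perm T) (ρ : Perm S), ∑ G ∈ univ.filter (fun G : SimpleGraph V =>
        GInv (ρ.subtypeCongr τ) G ∧ ∀ v ∈ A, dg G v = 2), x ^ ne G =
      ∑ G ∈ univ.filter (fun G : SimpleGraph (T ⊕ S) =>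
        GInv (Perm.sumCongr τ ρ) G ∧ ∀ v, dg G (inr v) = 2), x ^ ne G := by
    intro τ ρ
    refine sum_nbij' (fun G => G.comap ε) (fun G => G.comap ε.symm) ?_ ?_ ?_ ?_ ?_
    · intro G hG
      obtain ⟨-, h1, h2⟩ := mem_filter.1 hG
      refine mem_filter.2 ⟨mem_univ _, fun u v => ?_, fun v => ?_⟩
      · simp only [SimpleGraph.comap_adj, ← hε]
        exact h1 _ _
      · rw [dg_comap]
        exact h2 _ v.2
    · intro G hG
      obtain ⟨-, h1, h2⟩ := mem_filter.1 hG
      refine mem_filter.2 ⟨mem_univ _, fun u v => ?_, fun v hv => ?_⟩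
      · obtain ⟨u, rfl⟩ := ε.surjective u
        obtain ⟨v, rfl⟩ := ε.surjective v
        simp only [SimpleGraph.comap_adj, hε, symm_apply_apply]
        exact h1 _ _
      · rw [dg_comap, ← h2 ⟨v, hv⟩]
        congr 1
        exact ε.symm_apply_eq.2 rfl
    · intro G _
      ext u v
      simp
    · intro G _
      ext u v
      simp
    · intro G _
      rw [ne_comap]
  rw [h1, mul_assoc, ← sum_perm_partition hT
    fun M => coeff A.card (typeSeries x N (Fintype.card V - A.card) M), mul_sum]
  refine sum_congr rfl fun τ _ => ?_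
  simp only [h2]
  rw [← mul_sum, sum_split_signed, ← hT, coeff_typeSeries x τ hA, aCoef, hS, neg_pow x]
  have : (A.card.factorial : K) ≠ 0 := Nat.cast_ne_zero.2 (Nat.factorial_ne_zero _)
  field_simp

open Classical in
theorem incl_excl [Fintype V] [DecidableEq V] (x : K) (σ : Perm V) :
    ∑ G ∈ univ.filter (fun G : SimpleGraph V => GInv σ G ∧ ∀ v, dg G v ≠ 2), x ^ ne G =
      ∑ A : Finset V, sgnOn K σ A * ∑ G ∈ univ.filter (fun G : SimpleGraph V =>
        GInv σ G ∧ ∀ v ∈ A, dg G v = 2), x ^ ne G := by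
  simp only [sum_filter, mul_sum]
  rw [sum_comm]
  refine sum_congr rfl fun G _ => ?_
  by_cases hG : GInv σ G
  · have hD : Inv σ (univ.filter fun v => dg G v = 2) := fun v => by simp [hG.dg]
    have h1 := sum_sgnOn (K := K) hD
    have h2 : ∑ A ∈ invs σ (univ.filter fun v => dg G v = 2), sgnOn K σ A =
        ∑ A : Finset V, if ∀ v ∈ A, dg G v = 2 then sgnOn K σ A else 0 := by
      rw [← sum_filter]
      refine sum_subset (fun A hA => ?_) fun A hA hA' => ?_
      · exact mem_filter.2 ⟨mem_univ _, fun v hv => (mem_filter.1 ((mem_invs.1 hA).1 hv)).2⟩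
      · rw [sgnOn, dif_neg fun h => hA' (mem_invs.2 ⟨fun v hv => ?_, h⟩)]
        exact mem_filter.2 ⟨mem_univ _, (mem_filter.1 hA).2 v hv⟩
    simp only [hG, true_and, mul_ite, mul_zero]
    rw [h2] at h1
    have h3 := congrArg (· * x ^ ne G) h1
    simp only [sum_mul, ite_mul, zero_mul, one_mul] at h3
    rw [h3]
    refine if_congr ?_ rfl rfl
    simp [filter_eq_empty_iff]
  · simp [hG]

theorem closed_form [CharZero K] (x : K) (N p : ℕ) (hp : p ≤ N) :
    ∑ q ∈ range (p.choose 2 + 1), (hcount p q : K) * x ^ q =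
      coeff p (cycFig x N * ∑ t ∈ range (N + 1), X ^ t * ∑ lam : Nat.Partition t,
        C ((zee t fun k => lam.parts.count k : ℕ) : K)⁻¹ *
          pairTerm t (fun k => lam.parts.count k)
            (pairFig 1 x N) (pairFig (-1) x N) (loopFig x N)) := by
  classical
  have hp0 : (p.factorial : K) ≠ 0 := Nat.cast_ne_zero.2 (Nat.factorial_ne_zero _)
  apply mul_left_cancel₀ hp0
  let Ψ : ℕ → ℕ → K := fun t s => ∑ lam : Nat.Partition t,
    ((zee t fun k => lam.parts.count k : ℕ) : K)⁻¹ * coeff s (typeSeries x N t lam.parts)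
  have hR : coeff p (cycFig x N * ∑ t ∈ range (N + 1), X ^ t * ∑ lam : Nat.Partition t,
        C ((zee t fun k => lam.parts.count k : ℕ) : K)⁻¹ *
          pairTerm t (fun k => lam.parts.count k)
            (pairFig 1 x N) (pairFig (-1) x N) (loopFig x N)) =
      ∑ s ∈ range (p + 1), Ψ (p - s) s := by
    rw [mul_sum, map_sum, ← sum_subset (range_subset_range.2 (show p + 1 ≤ N + 1 by omega)),
      ← sum_range_reflect]
    · refine sum_congr rfl fun s hs => ?_
      rw [mem_range] at hs
      rw [mul_left_comm, coeff_X_pow_mul', if_pos (by omega), mul_sum, map_sum,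
        show p - (p + 1 - 1 - s) = s by omega]
      refine sum_congr rfl fun lam _ => ?_
      rw [mul_left_comm, coeff_C_mul]
      rfl
    · intro t _ ht
      rw [mem_range] at ht
      rw [mul_left_comm, coeff_X_pow_mul', if_neg (by omega)]
  rw [hR, burnside_weighted, sum_congr rfl fun σ _ => by convert incl_excl x σ, sum_comm]
  have h1 : ∀ A : Finset (Fin p), A.card ≤ N := fun A =>
    (A.card_le_univ.trans (by simp)).trans hp
  simp only [fun A => sum_over_subset x A (h1 A) (Fintype.card_fin p)]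
  rw [← powerset_univ]
  refine (sum_powerset_apply_card (x := (univ : Finset (Fin p)))
    (fun s => (s.factorial : K) * (p - s).factorial * Ψ (p - s) s)).trans ?_
  rw [mul_sum, card_univ, Fintype.card_fin]
  refine sum_congr rfl fun s hs => ?_
  rw [← Nat.choose_mul_factorial_mul_factorial (show s ≤ p by simpa [Nat.lt_succ_iff] using hs),
    nsmul_eq_mul]
  push_cast
  ring

end Pool.Agent.MP_5f0aae_co
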