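import Pool.Agent.MP_5f0aae_co.LogD

/-! From graphs to the structures: Burnside, invariant graphs, splitting off a set of points. -/

namespace Pool.Agent.MP_5f0aae_co

open Finset Equiv Function Sum

variable {V W T S : Type} {K : Type*} [Field K]

def GInv (σ : Perm V) (G : SimpleGraph V) : Prop := ∀ u v, G.Adj (σ u) (σ v) ↔ G.Adj u v

noncomputable def ne (G : SimpleGraph V) : ℕ := G.edgeSet.ncard

noncomputable def dg (G : SimpleGraph V) (v : V) : ℕ := (G.neighborSet v).ncard

theorem ne_comap (ε : V ≃ W) (G : SimpleGraph W) : ne (G.comap ε) = ne G :=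
  Set.ncard_congr' (SimpleGraph.Iso.comap ε G).mapEdgeSet

theorem dg_comap (ε : V ≃ W) (G : SimpleGraph W) (v : V) : dg (G.comap ε) v = dg G (ε v) :=
  Set.ncard_congr' ((SimpleGraph.Iso.comap ε G).mapNeighborSet v)

theorem GInv.comap_eq {σ : Perm V} {G : SimpleGraph V} : G.comap σ = G ↔ GInv σ G := by
  simp [GInv, SimpleGraph.ext_iff, funext_iff]

theorem GInv.dg {σ : Perm V} {G : SimpleGraph V} (h : GInv σ G) (v : V) :
    dg G (σ v) = dg G v := by
  rw [← dg_comap, GInv.comap_eq.2 h]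

open Classical in
theorem dg_eq_sum [Fintype V] (G : SimpleGraph V) (v : V) :
    dg G v = ∑ w, if G.Adj v w then 1 else 0 := by
  rw [dg, ← card_filter, ← Set.ncard_coe_finset]
  congr 1
  ext w
  simp

theorem two_mul_ne [Fintype V] (G : SimpleGraph V) : 2 * ne G = ∑ v, dg G v := by
  classical
  rw [ne, ← SimpleGraph.coe_edgeFinset, Set.ncard_coe_finset,
    ← SimpleGraph.sum_degrees_eq_twice_card_edges]
  refine sum_congr rfl fun v _ => ?_
  rw [dg, ← SimpleGraph.card_neighborFinset_eq_degree, ← Set.ncard_coe_finset,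
    SimpleGraph.coe_neighborFinset]

section Burnside

/-- Labelled graphs without points of degree two. -/
def HI (p q : ℕ) : Type :=
  {G : SimpleGraph (Fin p) // (∀ v, (G.neighborSet v).ncard ≠ 2) ∧ G.edgeSet.ncard = q}

instance (p q : ℕ) : MulAction (Perm (Fin p)) (HI p q) where
  smul σ G := ⟨G.1.comap σ.symm, fun v => by
    have := dg_comap σ.symm G.1 v
    unfold dg at this
    rw [this]
    exact G.2.1 _, (ne_comap σ.symm G.1).trans G.2.2⟩
  one_smul _ := rfl
  mul_smul _ _ _ := rfl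

theorem HI.smul_val {p q : ℕ} (σ : Perm (Fin p)) (G : HI p q) :
    (σ • G).1 = G.1.comap σ.symm := rfl

open Classical in
theorem burnside (p q : ℕ) : hcount p q * p.factorial = ∑ σ : Perm (Fin p),
    (univ.filter fun G : SimpleGraph (Fin p) =>
      (GInv σ G ∧ ∀ v, dg G v ≠ 2) ∧ ne G = q).card := by
  have : Finite (HI p q) := Subtype.finite
  let _ := Fintype.ofFinite (HI p q)
  let _ := Fintype.ofFinite (MulAction.orbitRel.Quotient (Perm (Fin p)) (HI p q))
  have h := MulAction.sum_card_fixedBy_eq_card_orbits_mul_card_group (Perm (Fin p)) (HI p q)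
  rw [Fintype.card_perm, Fintype.card_fin] at h
  have h1 : hcount p q =
      Fintype.card (MulAction.orbitRel.Quotient (Perm (Fin p)) (HI p q)) := by
    rw [← Nat.card_eq_fintype_card]
    refine Nat.card_congr (Quot.congrRight fun G H => ?_)
    rw [MulAction.orbitRel_apply]
    constructor
    · rintro ⟨φ⟩
      refine ⟨φ.toEquiv.symm, Subtype.ext ?_⟩
      ext u v
      exact φ.map_rel_iff
    · rintro ⟨σ, rfl⟩
      exact ⟨SimpleGraph.Iso.comap σ.symm H.1⟩
  rw [h1, ← h]
  refine sum_congr rfl fun σ _ => ?_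
  rw [← Fintype.card_subtype]
  have key : ∀ G : SimpleGraph (Fin p), G.comap σ.symm = G ↔ GInv σ G := by
    intro G
    rw [GInv.comap_eq]
    refine ⟨fun h u v => ?_, fun h u v => ?_⟩
    · simpa using (h (σ u) (σ v)).symm
    · simpa using (h (σ.symm u) (σ.symm v)).symm
  exact Fintype.card_congr
    ⟨fun G => ⟨G.1.1, ⟨(key _).1 (congrArg Subtype.val G.2), G.1.2.1⟩, G.1.2.2⟩,
      fun G => ⟨⟨G.1, G.2.1.2, G.2.2⟩, Subtype.ext ((key _).2 G.2.1.1)⟩,
      fun _ => rfl, fun _ => rfl⟩

open Classical in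
theorem burnside_weighted (p : ℕ) (x : K) :
    (p.factorial : K) * ∑ q ∈ range (p.choose 2 + 1), (hcount p q : K) * x ^ q =
      ∑ σ : Perm (Fin p), ∑ G ∈ univ.filter (fun G : SimpleGraph (Fin p) =>
        GInv σ G ∧ ∀ v, dg G v ≠ 2), x ^ ne G := by
  have h1 : ∀ σ : Perm (Fin p), ∑ G ∈ univ.filter (fun G : SimpleGraph (Fin p) =>
        GInv σ G ∧ ∀ v, dg G v ≠ 2), x ^ ne G =
      ∑ q ∈ range (p.choose 2 + 1), ((univ.filter fun G : SimpleGraph (Fin p) =>
        (GInv σ G ∧ ∀ v, dg G v ≠ 2) ∧ ne G = q).card : K) * x ^ q := by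
    intro σ
    rw [← sum_fiberwise_of_maps_to (g := ne) (t := range (p.choose 2 + 1))]
    · refine sum_congr rfl fun q _ => ?_
      rw [filter_filter, sum_congr rfl (g := fun _ => x ^ q), sum_const, nsmul_eq_mul]
      intro G hG
      rw [(mem_filter.1 hG).2.2]
    · intro G _
      have := G.card_edgeFinset_le_card_choose_two
      rw [Fintype.card_fin] at this
      rw [mem_range, ne, ← SimpleGraph.coe_edgeFinset, Set.ncard_coe_finset]
      omega
  simp only [h1]
  rw [sum_comm, mul_sum]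
  refine sum_congr rfl fun q _ => ?_
  rw [← sum_mul, ← Nat.cast_sum, ← burnside]
  push_cast
  ring

end Burnside

section Pairs

variable [Fintype T] [DecidableEq T]

def sym2Perm (τ : Perm T) : Perm (Sym2 T) where
  toFun := Sym2.map τ
  invFun := Sym2.map τ.symm
  left_inv z := by simp [Sym2.map_map]
  right_inv z := by simp [Sym2.map_map]

omit [Fintype T] [DecidableEq T] in
theorem sym2Perm_pow (τ : Perm T) (n : ℕ) (a b : T) :
    (sym2Perm τ ^ n) s(a, b) = s((τ ^ n) a, (τ ^ n) b) := by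
  induction n with
  | zero => simp
  | succ n ih =>
    rw [pow_succ', pow_succ', Perm.mul_apply, ih]
    rfl

def offDiag (T : Type) [Fintype T] [DecidableEq T] : Finset (Sym2 T) :=
  univ.filter fun z => ¬ z.IsDiag

theorem inv_offDiag (τ : Perm T) : Inv (sym2Perm τ) (offDiag T) := by
  intro z
  induction z using Sym2.ind with
  | _ a b => simp [offDiag, sym2Perm]

theorem card_fix_offDiag (τ : Perm T) (n : ℕ) :
    2 * (((offDiag T).filter fun z => (sym2Perm τ ^ n) z = z).card : ℚ) =
      (fixc τ n : ℚ) ^ 2 - fixc τ n + (fixc τ (2 * n) - fixc τ n) := by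
  have h := sum_validPairs (K := ℚ) τ n 0 1
  simp only [if_true, one_mul] at h
  rw [← h]
  have h1 : ((validPairs T 0).filter fun y => (sym2Perm τ ^ n) s(y.1, y.2) = s(y.1, y.2)).card =
      2 * ((offDiag T).filter fun z => (sym2Perm τ ^ n) z = z).card := by
    rw [card_eq_sum_card_fiberwise (f := fun y : T × T => s(y.1, y.2))
      (t := (offDiag T).filter fun z => (sym2Perm τ ^ n) z = z), mul_comm, ← smul_eq_mul,
      ← sum_const]
    · refine sum_congr rfl fun z hz => ?_
      induction z using Sym2.ind with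
      | _ a b =>
        simp only [offDiag, mem_filter, mem_univ, true_and, Sym2.mk_isDiag_iff] at hz
        rw [← card_pair (show (a, b) ≠ (b, a) from fun h => hz.1 (Prod.mk.inj h).1)]
        congr 1
        ext ⟨c, d⟩
        simp only [mem_filter, mem_validPairs, mem_insert, mem_singleton, Prod.mk.injEq]
        constructor
        · rintro ⟨-, h⟩
          exact Sym2.eq_iff.1 h
        · rintro (⟨rfl, rfl⟩ | ⟨rfl, rfl⟩)
          · exact ⟨⟨fun _ => hz.1, hz.2⟩, rfl⟩
          · exact ⟨⟨fun _ => Ne.symm hz.1, by rw [Sym2.eq_swap]; exact hz.2⟩, Sym2.eq_swap⟩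
    · intro y hy
      simp only [coe_filter, Set.mem_ofPred_eq, mem_validPairs, offDiag, mem_filter, mem_univ,
        true_and, Sym2.mk_isDiag_iff] at hy ⊢
      exact ⟨hy.1 trivial, hy.2⟩
  have h2 := congrArg (Nat.cast : ℕ → ℚ) h1
  rw [Nat.cast_mul, Nat.cast_ofNat] at h2
  rw [← h2, card_filter, Nat.cast_sum]
  simp only [Nat.cast_ite, Nat.cast_one, Nat.cast_zero]
  refine sum_congr rfl fun y hy => ?_
  have hne := mem_validPairs.1 hy rfl
  simp only [sym2Perm_pow, Sym2.eq_iff]
  by_cases h3 : (τ ^ n) y.1 = y.1 ∧ (τ ^ n) y.2 = y.2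
  · have h4 : ¬ ((τ ^ n) y.1 = y.2 ∧ (τ ^ n) y.2 = y.1) := fun h4 => hne (h3.1.symm.trans h4.1)
    rw [if_pos (Or.inl h3), if_pos h3, if_neg h4, add_zero]
  · simp only [h3, false_or, if_false, zero_add]

open Classical in
theorem sum_inv_graphs (τ : Perm T) (x : K) :
    ∑ G ∈ univ.filter (GInv τ), x ^ ne G =
      pairTerm (Fintype.card T) (fun k => τ.partition.parts.count k)
        (fun k => 1 + x ^ k) (fun k => 1 + x ^ k) fun _ => 1 := by
  obtain ⟨M, hM0, hM1, hM2⟩ := exists_orbit_sizes (sym2Perm τ) x (offDiag T) (inv_offDiag τ)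
  have h1 : ∑ G ∈ univ.filter (GInv τ), x ^ ne G =
      ∑ A ∈ invs (sym2Perm τ) (offDiag T), x ^ A.card := by
    refine sum_nbij' (fun G => G.edgeSet.toFinset) (fun A => SimpleGraph.fromEdgeSet A)
      ?_ ?_ ?_ ?_ ?_
    · intro G hG
      refine mem_invs.2 ⟨fun z hz => ?_, fun z => ?_⟩
      · simpa [offDiag] using G.not_isDiag_of_mem_edgeSet (by simpa using hz)
      · induction z using Sym2.ind with
        | _ a b => simpa [sym2Perm] using (mem_filter.1 hG).2 a b
    · intro A hA
      refine mem_filter.2 ⟨mem_univ _, fun u v => ?_⟩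
      have := (mem_invs.1 hA).2 s(u, v)
      simp only [sym2Perm, coe_fn_mk, Sym2.map_mk] at this
      simp [this]
    · intro G _
      simp
    · intro A hA
      ext z
      have := (mem_invs.1 hA).1
      simp only [SimpleGraph.edgeSet_fromEdgeSet, Set.mem_toFinset, Set.mem_sdiff, mem_coe,
        and_iff_left_iff_imp]
      intro hz
      simpa [offDiag] using this hz
    · intro G _
      rw [ne, Set.ncard_eq_toFinset_card']
  set M' : Multiset ℕ := pairSum (Fintype.card T) (fun k => τ.partition.parts.count k)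
    (fun k => {k}) (fun k => {k}) fun _ => 0 with hM'
  have h2 := rel_pairTerm (M := K) (A := Multiset ℕ)
    (fun a B => 0 ∉ B ∧ a = (B.map fun L => 1 + x ^ L).prod) (by simp)
    (fun a a' B B' h h' => ⟨by simp [h.1, h'.1], by simp [h.2, h'.2]⟩)
    (Fintype.card T) (fun k => τ.partition.parts.count k)
    (F := fun k => 1 + x ^ k) (G := fun k => 1 + x ^ k) (L := fun _ => 1)
    (F' := fun k => {k}) (G' := fun k => {k}) (L' := fun _ => 0)
    (fun k hk => ⟨by simp; omega, by simp⟩) (fun k hk => ⟨by simp; omega, by simp⟩)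
    (fun k _ => by simp)
  rw [h1, hM2, h2.2, eq_of_dsum_eq hM0 h2.1 fun n _ => ?_]
  let φ : Multiset ℕ →+ ℚ :=
    Multiset.sumAddMonoidHom.comp (Multiset.mapAddMonoidHom (dv ℚ n))
  have hφ : ∀ B, φ B = dsum B n := by
    intro B
    simp only [φ, dsum, AddMonoidHom.comp_apply, Multiset.coe_mapAddMonoidHom,
      Multiset.coe_sumAddMonoidHom, Nat.cast_multiset_sum, Multiset.map_map]
    congr 2
    funext k
    simp [dv]
  have h3 := map_pairSum φ (Fintype.card T) (fun k => τ.partition.parts.count k)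
    (fun k => {k}) (fun k => {k}) fun _ => 0
  have h4 := two_mul_pairSum (R := ℚ) (ε := 1) (by simp) 0 n (Fintype.card T)
    fun k => τ.partition.parts.count k
  simp only [← fixc_cast, one_pow, mul_one, mul_zero, zero_mul, add_zero, one_mul] at h4
  have h5 := card_fix_offDiag τ n
  have h6 : ∀ k, φ {k} = dv ℚ n k := fun k => by simp [φ]
  simp only [h6, map_zero] at h3
  rw [hM1, ← h4, ← h3, hφ] at h5
  exact_mod_cast mul_left_cancel₀ two_ne_zero h5

end Pairs

section Split

variable [Fintype T] [DecidableEq T] [Fintype S] [DecidableEq S]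

open Classical in
noncomputable def nbOf (G : SimpleGraph (T ⊕ S)) (v : S) : Finset (T ⊕ S) :=
  univ.filter (G.Adj (inr v))

omit [DecidableEq T] [DecidableEq S] in
theorem mem_nbOf {G : SimpleGraph (T ⊕ S)} {v : S} {z : T ⊕ S} :
    z ∈ nbOf G v ↔ G.Adj (inr v) z := by
  simp [nbOf]

omit [DecidableEq T] [DecidableEq S] in
theorem card_nbOf (G : SimpleGraph (T ⊕ S)) (v : S) : (nbOf G v).card = dg G (inr v) := by
  rw [dg_eq_sum, nbOf, card_filter]

omit [DecidableEq T] [DecidableEq S] in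
theorem ne_split (G : SimpleGraph (T ⊕ S)) (h : ∀ v, dg G (inr v) = 2) :
    ne G = ne (G.comap inl) + Fintype.card S + td (nbOf G) / 2 := by
  classical
  have h1 := two_mul_ne G
  have h2 := two_mul_ne (G.comap (inl : T → T ⊕ S))
  have h3 : td (nbOf G) = ∑ a : T, ∑ v : S, if G.Adj (inl a) (inr v) then 1 else 0 := by
    rw [sum_comm]
    refine sum_congr rfl fun v _ => ?_
    rw [tdv, nbOf, filter_filter, card_filter, Fintype.sum_sum_type]
    simp [G.adj_comm]
  rw [Fintype.sum_sum_type] at h1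
  simp only [h, sum_const, card_univ, smul_eq_mul] at h1
  simp only [dg_eq_sum, Fintype.sum_sum_type, sum_add_distrib, SimpleGraph.comap_adj] at h1 h2
  rw [← h3, ← h2] at h1
  omega

def glue (G : SimpleGraph T) (nb : S → Finset (T ⊕ S)) (h : Pre nb) : SimpleGraph (T ⊕ S) where
  Adj
    | inl a, inl b => G.Adj a b
    | inl a, inr v => inl a ∈ nb v
    | inr v, inl a => inl a ∈ nb v
    | inr u, inr v => inr v ∈ nb u
  symm := ⟨by
    rintro (a | u) (b | v) h'
    · exact G.adj_symm h'
    · exact h'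
    · exact h'
    · exact h.symm _ _ h'⟩
  loopless := ⟨by
    rintro (a | u) h'
    · exact G.irrefl h'
    · exact h.irrefl _ h'⟩

omit [Fintype T] [Fintype S] in
theorem hom_iff_mem {τ : Perm T} {ρ : Perm S} {nb : S → Finset (T ⊕ S)} :
    Hom τ ρ nb nb ↔ ∀ v z, Sum.map τ ρ z ∈ nb (ρ v) ↔ z ∈ nb v := by
  have hinj : Injective (Sum.map τ ρ) := Sum.map_injective.2 ⟨τ.injective, ρ.injective⟩
  constructor
  · intro h v z
    rw [h, hinj.mem_finset_image]
  · intro h v
    ext z
    obtain ⟨z, rfl⟩ := (Sum.map_surjective.2 ⟨τ.surjective, ρ.surjective⟩) z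
    rw [h, hinj.mem_finset_image]

open Classical in
theorem sum_split (τ : Perm T) (ρ : Perm S) (x : K) :
    ∑ G ∈ univ.filter (fun G : SimpleGraph (T ⊕ S) =>
        GInv (Perm.sumCongr τ ρ) G ∧ ∀ v, dg G (inr v) = 2), x ^ ne G =
      (∑ G ∈ univ.filter (GInv τ), x ^ ne G) * x ^ Fintype.card S *
        ∑ nb ∈ univ.filter (fun nb : S → Finset (T ⊕ S) => Pre nb ∧ Hom τ ρ nb nb),
          x ^ (td nb / 2) := by
  rw [sum_mul, sum_mul_sum, ← sum_product']
  refine sum_bij (fun G _ => (G.comap inl, nbOf G)) ?_ ?_ ?_ ?_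
  · intro G hG
    obtain ⟨-, h1, h2⟩ := mem_filter.1 hG
    simp only [mem_product, mem_filter, mem_univ, true_and]
    refine ⟨fun a b => h1 (inl a) (inl b), ⟨fun v => by rw [card_nbOf, h2], fun u v h => ?_,
      fun v h => ?_⟩, hom_iff_mem.2 fun v z => ?_⟩
    · exact mem_nbOf.2 (mem_nbOf.1 h).symm
    · exact G.irrefl (mem_nbOf.1 h)
    · rw [mem_nbOf, mem_nbOf]
      exact h1 (inr v) z
  · intro G _ G' _ h
    obtain ⟨h1, h2⟩ := Prod.mk.inj h
    have h3 : ∀ v z, G.Adj (inr v) z ↔ G'.Adj (inr v) z := fun v z => by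
      rw [← mem_nbOf, ← mem_nbOf, h2]
    ext (a | u) z
    · rcases z with b | v
      · exact iff_of_eq (congrArg (fun H : SimpleGraph T => H.Adj a b) h1)
      · rw [G.adj_comm, G'.adj_comm, h3]
    · exact h3 u z
  · rintro ⟨G, nb⟩ h
    simp only [mem_product, mem_filter, mem_univ, true_and] at h
    obtain ⟨h1, h2, h3⟩ := h
    have h4 : nbOf (glue G nb h2) = nb := by
      funext v
      ext (a | u) <;> exact mem_nbOf
    refine ⟨glue G nb h2, mem_filter.2 ⟨mem_univ _, ?_, fun v => ?_⟩, Prod.ext rfl h4⟩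
    · rw [hom_iff_mem] at h3
      rintro (a | u) (b | v)
      · exact h1 a b
      · exact h3 v (inl a)
      · exact h3 u (inl b)
      · exact h3 u (inr v)
    · rw [← card_nbOf, h4, h2.card]
  · intro G hG
    rw [ne_split G (mem_filter.1 hG).2.2, pow_add, pow_add]

open Classical in
theorem sum_split_signed (τ : Perm T) (x : K) :
    ∑ ρ : Perm S, ((Perm.sign ρ : ℤ) : K) * ∑ G ∈ univ.filter (fun G : SimpleGraph (T ⊕ S) =>
        GInv (Perm.sumCongr τ ρ) G ∧ ∀ v, dg G (inr v) = 2), x ^ ne G =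
      (∑ G ∈ univ.filter (GInv τ), x ^ ne G) * x ^ Fintype.card S *
        Wn x τ (Fintype.card S) := by
  rw [← W_eq_Wn, W, St,
    sum_filter (s := (univ : Finset (Perm S × (S → Finset (T ⊕ S))))), Fintype.sum_prod_type,
    mul_sum]
  refine sum_congr rfl fun ρ _ => ?_
  rw [sum_split, mul_left_comm, mul_sum, sum_filter (s := (univ : Finset (S → Finset (T ⊕ S))))]
  rfl

end Split

end Pool.Agent.MP_5f0aae_co
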