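import Pool.Agent.MP_5f0aae_co.Orbits

/-! Logarithmic derivatives of the figure series. -/

namespace Pool.Agent.MP_5f0aae_co

open Finset PowerSeries

section PairSum

def pairSum {A : Type*} [AddCommMonoid A] (t : ℕ) (c : ℕ → ℕ) (F G L : ℕ → A) : A :=
  ∑ k ∈ Icc 1 t,
    (c k • (((k - 1) / 2) • F k + (if Even k then G (k / 2) else 0) + L k) +
      (k * (c k).choose 2) • F k + ∑ r ∈ Ico 1 k, (Nat.gcd r k * c r * c k) • F (Nat.lcm r k))

theorem rel_pairTerm {M A : Type*} [CommMonoid M] [AddCommMonoid A] (R : M → A → Prop)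
    (h1 : R 1 0) (hmul : ∀ a a' b b', R a b → R a' b' → R (a * a') (b + b'))
    (t : ℕ) (c : ℕ → ℕ) {F G L : ℕ → M} {F' G' L' : ℕ → A} (hF : ∀ k, 1 ≤ k → R (F k) (F' k))
    (hG : ∀ k, 1 ≤ k → R (G k) (G' k)) (hL : ∀ k, 1 ≤ k → R (L k) (L' k)) :
    R (pairTerm t c F G L) (pairSum t c F' G' L') := by
  have hpow : ∀ a b (n : ℕ), R a b → R (a ^ n) (n • b) := by
    intro a b n h
    induction n with
    | zero => simpa using h1
    | succ n ih => rw [pow_succ, succ_nsmul]; exact hmul _ _ _ _ ih h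
  have hprod : ∀ (s : Finset ℕ) (f : ℕ → M) (g : ℕ → A), (∀ i ∈ s, R (f i) (g i)) →
      R (∏ i ∈ s, f i) (∑ i ∈ s, g i) := by
    intro s f g h
    induction s using Finset.induction_on with
    | empty => simpa using h1
    | insert a s ha ih =>
      rw [prod_insert ha, sum_insert ha]
      exact hmul _ _ _ _ (h a (mem_insert_self _ _)) (ih fun i hi => h i (mem_insert_of_mem hi))
  refine hprod _ _ _ fun k hk => ?_
  have hk1 := (mem_Icc.1 hk).1
  refine hmul _ _ _ _ (hmul _ _ _ _ (hpow _ _ _ (hmul _ _ _ _ (hmul _ _ _ _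
    (hpow _ _ _ (hF k hk1)) ?_) (hL k hk1))) (hpow _ _ _ (hF k hk1))) (hprod _ _ _ fun r hr => ?_)
  · split_ifs with h
    · obtain ⟨a, rfl⟩ := h
      exact hG _ (by omega)
    · exact h1
  · exact hpow _ _ _ (hF _ (Nat.lcm_pos (mem_Ico.1 hr).1 hk1))

theorem map_pairSum {A B : Type*} [AddCommMonoid A] [AddCommMonoid B] (φ : A →+ B)
    (t : ℕ) (c : ℕ → ℕ) (F G L : ℕ → A) :
    φ (pairSum t c F G L) = pairSum t c (fun k => φ (F k)) (fun k => φ (G k)) fun k => φ (L k) := by
  simp only [pairSum, map_sum, map_add, map_nsmul, apply_ite φ, map_zero]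

theorem map_pairTerm {A B : Type*} [CommMonoid A] [CommMonoid B] (φ : A →* B)
    (t : ℕ) (c : ℕ → ℕ) (F G L : ℕ → A) :
    φ (pairTerm t c F G L) =
      pairTerm t c (fun k => φ (F k)) (fun k => φ (G k)) fun k => φ (L k) := by
  simp only [pairTerm, map_prod, map_mul, map_pow, apply_ite φ, map_one]

theorem pairTerm_mul {M : Type*} [CommMonoid M] (t : ℕ) (c : ℕ → ℕ) (F G L F' G' L' : ℕ → M) :
    pairTerm t c (fun k => F k * F' k) (fun k => G k * G' k) (fun k => L k * L' k) =
      pairTerm t c F G L * pairTerm t c F' G' L' := by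
  unfold pairTerm
  rw [← prod_mul_distrib]
  refine prod_congr rfl fun k _ => ?_
  simp only [mul_pow, prod_mul_distrib]
  split_ifs <;> simp only [mul_pow, one_pow] <;> ac_rfl

variable {R : Type*} [CommRing R]

/-- `k` if `k ∣ n`, else `0`. -/
def dv (R : Type*) [CommRing R] (n k : ℕ) : R := if k ∣ n then k else 0

theorem gcd_mul_dv (n r k : ℕ) : (Nat.gcd r k : R) * dv R n (Nat.lcm r k) = dv R n r * dv R n k := by
  unfold dv
  by_cases hr : r ∣ n <;> by_cases hk : k ∣ n <;> simp only [Nat.lcm_dvd_iff, hr, hk] <;> simp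
  rw [← Nat.cast_mul, Nat.gcd_mul_lcm, Nat.cast_mul]

theorem cast_mul_dv (n k : ℕ) : (k : R) * dv R n k = dv R n k ^ 2 := by
  unfold dv
  split_ifs <;> ring

theorem half_dv {ε : R} (hε : ε ^ 2 = 1) (n : ℕ) {k : ℕ} (hk : 1 ≤ k) :
    2 * ((((k - 1) / 2 : ℕ) : R) * dv R n k +
      if Even k then dv R n (k / 2) * ε ^ (n / (k / 2)) else 0) =
      k * dv R n k - dv R n k + ε * (dv R (2 * n) k - dv R n k) := by
  rcases Nat.even_or_odd' k with ⟨h, rfl | rfl⟩
  · obtain ⟨h, rfl⟩ : ∃ h', h = h' + 1 := ⟨h - 1, by omega⟩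
    rw [if_pos (even_two_mul _), show (2 * (h + 1) - 1) / 2 = h by omega,
      show 2 * (h + 1) / 2 = h + 1 by omega]
    unfold dv
    simp only [Nat.mul_dvd_mul_iff_left two_pos]
    by_cases h1 : h + 1 ∣ n
    · obtain ⟨a, rfl⟩ := h1
      rw [Nat.mul_div_cancel_left _ (Nat.succ_pos h), mul_comm 2 (h + 1)]
      simp only [Nat.mul_dvd_mul_iff_left (Nat.succ_pos h), dvd_mul_right, if_true]
      rcases Nat.even_or_odd' a with ⟨b, rfl | rfl⟩
      · rw [if_pos (dvd_mul_right _ _), pow_mul, hε]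
        push_cast
        ring
      · rw [if_neg (by omega), pow_succ, pow_mul, hε]
        push_cast
        ring
    · have h2 : ¬ 2 * (h + 1) ∣ n := fun h2 => h1 ((dvd_mul_left _ _).trans h2)
      simp [h1, h2]
  · have h1 : 2 * h + 1 ∣ 2 * n ↔ 2 * h + 1 ∣ n :=
      Nat.Coprime.dvd_mul_left (by simp)
    rw [if_neg (by simp), show (2 * h + 1 - 1) / 2 = h by omega]
    simp only [dv, h1]
    push_cast
    ring

theorem two_mul_pairSum {ε : R} (hε : ε ^ 2 = 1) (l : R) (n t : ℕ) (c : ℕ → ℕ) :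
    2 * pairSum t c (dv R n) (fun k => dv R n k * ε ^ (n / k)) (fun k => dv R n k * l) =
      (∑ k ∈ Icc 1 t, c k * dv R n k) ^ 2 - ∑ k ∈ Icc 1 t, c k * dv R n k +
        ε * (∑ k ∈ Icc 1 t, c k * dv R (2 * n) k - ∑ k ∈ Icc 1 t, c k * dv R n k) +
        2 * l * ∑ k ∈ Icc 1 t, c k * dv R n k := by
  unfold pairSum
  induction t with
  | zero => simp
  | succ t ih =>
    simp only [sum_Icc_succ_top (show 1 ≤ t + 1 by omega)]
    rw [mul_add, ih]
    have h1 : ∑ r ∈ Ico 1 (t + 1), (Nat.gcd r (t + 1) * c r * c (t + 1)) •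
        dv R n (Nat.lcm r (t + 1)) =
        (∑ k ∈ Icc 1 t, c k * dv R n k) * (c (t + 1) * dv R n (t + 1)) := by
      rw [sum_mul, ← Ico_add_one_right_eq_Icc]
      refine sum_congr rfl fun r _ => ?_
      have := gcd_mul_dv (R := R) n r (t + 1)
      rw [nsmul_eq_mul]
      push_cast at this ⊢
      linear_combination (c r * c (t + 1) : R) * this
    have h2 := half_dv hε n (show 1 ≤ t + 1 by omega)
    have h3 := cast_mul_dv (R := R) n (t + 1)
    have h4 : (2 : R) * ((c (t + 1)).choose 2 : ℕ) = c (t + 1) * (c (t + 1) - 1) := by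
      rcases c (t + 1) with _ | a
      · simp
      · have := Nat.add_one_mul_choose_eq a 1
        rw [Nat.choose_one_right] at this
        have h5 := congrArg (Nat.cast : ℕ → R) this
        push_cast at h5 ⊢
        linear_combination -h5
    rw [h1]
    simp only [nsmul_eq_mul, Nat.cast_mul]
    linear_combination (c (t + 1) : R) * h2 + ((t + 1 : ℕ) : R) * dv R n (t + 1) * h4 +
      (c (t + 1) : R) ^ 2 * h3

end PairSum

variable {K : Type*} [Field K]

/-- `P` has constant term one and `X P' / P` has the coefficients `l` up to degree `N`. -/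
def LD (N : ℕ) (P : K⟦X⟧) (l : ℕ → K) : Prop :=
  constantCoeff P = 1 ∧
    ∃ L : K⟦X⟧, X * d⁄dX K P = L * P ∧ ∀ m, 1 ≤ m → m ≤ N → coeff m L = l m

variable {N : ℕ}

theorem LD.one : LD N (1 : K⟦X⟧) 0 := ⟨by simp, 0, by simp, by simp⟩

theorem LD.mul {P Q : K⟦X⟧} {l l' : ℕ → K} (h : LD N P l) (h' : LD N Q l') :
    LD N (P * Q) (l + l') := by
  obtain ⟨h0, L, hL, hl⟩ := h
  obtain ⟨h0', L', hL', hl'⟩ := h'
  refine ⟨by simp [h0, h0'], L + L', ?_, fun m h1 h2 => by simp [hl m h1 h2, hl' m h1 h2]⟩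
  rw [Derivation.leibniz, smul_eq_mul, smul_eq_mul]
  linear_combination P * hL' + Q * hL

theorem LD.congr {P : K⟦X⟧} {l l' : ℕ → K} (h : LD N P l)
    (hl : ∀ m, 1 ≤ m → m ≤ N → l m = l' m) : LD N P l' := by
  obtain ⟨h0, L, hL, hl'⟩ := h
  exact ⟨h0, L, hL, fun m h1 h2 => (hl' m h1 h2).trans (hl m h1 h2)⟩

theorem LD.inv {P : K⟦X⟧} {l : ℕ → K} (h : LD N P l) : LD N P⁻¹ (-l) := by
  obtain ⟨h0, L, hL, hl⟩ := h
  refine ⟨by simp [h0], -L, ?_, fun m h1 h2 => by simp [hl m h1 h2]⟩
  have h1 := PowerSeries.mul_inv_cancel P (by rw [h0]; exact one_ne_zero)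
  rw [derivative_inv']
  linear_combination (-P⁻¹ ^ 2) * hL - L * P⁻¹ * h1

theorem LD.prod {s : Finset ℕ} {f : ℕ → K⟦X⟧} {g : ℕ → ℕ → K} (h : ∀ i ∈ s, LD N (f i) (g i)) :
    LD N (∏ i ∈ s, f i) (∑ i ∈ s, g i) := by
  induction s using Finset.induction_on with
  | empty => simpa using LD.one
  | insert a s ha ih =>
    rw [prod_insert ha, sum_insert ha]
    exact (h a (mem_insert_self _ _)).mul (ih fun i hi => h i (mem_insert_of_mem hi))

def geo (c : K) (b m : ℕ) : K := if b ∣ m then b * c ^ (m / b) else 0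

theorem LD.one_sub (c : K) {b : ℕ} (hb : 1 ≤ b) : LD N (1 - C c * X ^ b) (-geo c b) := by
  let g : K⟦X⟧ := PowerSeries.mk fun m => if b ∣ m then c ^ (m / b) else 0
  have hg : (1 - C c * X ^ b) * g = 1 := by
    ext m
    rw [sub_mul, one_mul, map_sub, mul_assoc, coeff_C_mul, coeff_X_pow_mul', coeff_one]
    simp only [g, coeff_mk]
    by_cases hm : b ≤ m
    · obtain ⟨k, rfl⟩ := Nat.exists_eq_add_of_le hm
      rw [if_pos hm, if_neg (show ¬ b + k = 0 by omega), Nat.add_sub_cancel_left,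
        Nat.add_div_left _ hb]
      simp only [Nat.dvd_add_right (dvd_refl b)]
      split_ifs <;> ring
    · rw [if_neg hm]
      rcases Nat.eq_zero_or_pos m with rfl | hm0
      · simp
      · rw [if_neg (Nat.not_dvd_of_pos_of_lt hm0 (by omega)), if_neg hm0.ne']
        simp
  refine ⟨by simp [show b ≠ 0 by omega], -(C (b : K) * (g - 1)), ?_, fun m h1 _ => ?_⟩
  · obtain ⟨b, rfl⟩ : ∃ b', b = b' + 1 := ⟨b - 1, by omega⟩
    simp only [map_sub, derivative_one, Derivation.leibniz, derivative_C, derivative_pow,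
      derivative_X, smul_eq_mul, map_natCast, Nat.add_sub_cancel]
    linear_combination ((b + 1 : ℕ) : K⟦X⟧) * hg
  · rw [map_neg, coeff_C_mul, map_sub, coeff_one, if_neg (by omega)]
    simp only [g, coeff_mk, geo, Pi.neg_apply]
    split_ifs <;> simp

theorem LD.coeff_eq [CharZero K] {P : K⟦X⟧} {l : ℕ → K} (h : LD N P l) {a : ℕ → K} (h0 : a 0 = 1)
    (ha : ∀ s ≤ N, s * a s = ∑ m ∈ Icc 1 s, l m * a (s - m)) : ∀ s ≤ N, coeff s P = a s := by
  obtain ⟨hP, L, hL, hl⟩ := h
  have hL0 : coeff 0 L = 0 := by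
    have := congrArg constantCoeff hL
    simpa [hP] using this.symm
  intro s
  induction s using Nat.strong_induction_on with
  | _ s ih =>
    intro hs
    rcases s with _ | s
    · simp [hP, h0]
    · have h1 := congrArg (coeff (s + 1)) hL
      rw [coeff_succ_X_mul, coeff_derivative, coeff_mul,
        Nat.sum_antidiagonal_eq_sum_range_succ (fun i j => coeff i L * coeff j P),
        range_eq_Ico, sum_eq_sum_Ico_succ_bot (by omega), hL0, zero_mul, zero_add,
        Nat.succ_eq_add_one, Ico_add_one_right_eq_Icc, zero_add] at h1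
      have h2 := ha (s + 1) hs
      rw [← sum_congr rfl fun m hm => ?_, ← h1] at h2
      · have h3 : ((s : K) + 1) ≠ 0 := Nat.cast_add_one_ne_zero s
        apply mul_left_cancel₀ h3
        push_cast at h2
        linear_combination -h2
      · rw [mem_Icc] at hm
        rw [hl m hm.1 (by omega), ih _ (by omega) (by omega)]

theorem sum_Icc_eq_sum_divisors {m : ℕ} (h1 : 1 ≤ m) (hm : m ≤ N) (f : ℕ → K)
    (hf : ∀ j, ¬ j ∣ m → f j = 0) : ∑ j ∈ Icc 1 N, f j = ∑ j ∈ m.divisors, f j := by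
  symm
  refine sum_subset (fun j hj => ?_) fun j _ hj => hf j fun h => hj ?_
  · exact mem_Icc.2 ⟨Nat.pos_of_mem_divisors hj, (Nat.divisor_le hj).trans hm⟩
  · exact Nat.mem_divisors.2 ⟨h, by omega⟩

theorem geo_mon (e x : K) {k j m : ℕ} (hk : 1 ≤ k) (hj : j ∈ m.divisors) :
    geo (e * x ^ (k * (j + 1))) (k * j) m =
      j * x ^ m * x ^ (m / j) * (dv K (m / j) k * e ^ (m / j / k)) := by
  have hj0 := Nat.pos_of_mem_divisors hj
  obtain ⟨n, rfl⟩ := Nat.dvd_of_mem_divisors hj
  rw [Nat.mul_div_cancel_left _ hj0, geo, dv, mul_comm k j]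
  simp only [Nat.mul_dvd_mul_iff_left hj0]
  split_ifs with h
  · obtain ⟨r, rfl⟩ := h
    rw [← mul_assoc, Nat.mul_div_cancel_left _ (Nat.mul_pos hj0 hk), Nat.mul_div_cancel_left _ hk]
    push_cast
    ring
  · simp

theorem geo_eq_zero (c : K) {k j m : ℕ} (h : ¬ j ∣ m) : geo c (k * j) m = 0 :=
  if_neg fun h' => h ((dvd_mul_left _ _).trans h')

/-- The part of the figure series for pairs that counts paths. -/
noncomputable def pathFig (e x : K) (N k : ℕ) : K⟦X⟧ :=
  ∏ j ∈ Icc 1 N, if Odd j then 1 - mon e x k j else (1 - mon e x k j)⁻¹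

/-- Summation over the length of the paths. -/
def overLen (x : K) (m : ℕ) : (ℕ → K) →+ K where
  toFun f := ∑ j ∈ m.divisors, (-1) ^ j * (j * x ^ m * x ^ (m / j)) * f j
  map_zero' := by simp
  map_add' f g := by simp [mul_add, sum_add_distrib]

theorem overLen_apply (x : K) (m : ℕ) (f : ℕ → K) :
    overLen x m f = ∑ j ∈ m.divisors, (-1) ^ j * (j * x ^ m * x ^ (m / j)) * f j := rfl

theorem ld_pathFig (e x : K) {k : ℕ} (hk : 1 ≤ k) : LD N (pathFig e x N k)
    fun m => overLen x m fun j => dv K (m / j) k * (e ^ (j / 2)) ^ (m / j / k) := by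
  refine (LD.prod (g := fun j m => (-1) ^ j * geo (e ^ (j / 2) * x ^ (k * (j + 1))) (k * j) m)
    fun j hj => ?_).congr fun m h1 hm => ?_
  · have hb : 1 ≤ k * j := Nat.mul_pos hk (mem_Icc.1 hj).1
    split_ifs with h
    · exact (LD.one_sub _ hb).congr fun m _ _ => by simp [h.neg_one_pow]
    · exact (LD.one_sub _ hb).inv.congr fun m _ _ => by
        simp [(Nat.not_odd_iff_even.1 h).neg_one_pow]
  · rw [Finset.sum_apply, sum_Icc_eq_sum_divisors h1 hm _ fun j hj => by simp [geo_eq_zero _ hj],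
      overLen_apply]
    refine sum_congr rfl fun j hj => ?_
    rw [geo_mon _ _ hk hj]
    ring

/-- One if loops with `j` points survive. -/
def loopOk (K : Type*) [Field K] (j : ℕ) : K := if 2 ≤ j ∧ (j % 4 = 1 ∨ j % 4 = 0) then 1 else 0

theorem ld_loopFig (x : K) {k : ℕ} (hk : 1 ≤ k) : LD N (loopFig x N k)
    fun m => overLen x m fun j => dv K (m / j) k * loopOk K j := by
  refine (LD.prod (g := fun j m =>
    (-1) ^ j * geo (1 ^ (j / 2) * x ^ (k * (j + 1))) (k * j) m * loopOk K j)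
    fun j hj => ?_).congr fun m h1 hm => ?_
  · have hj2 := (mem_Icc.1 hj).1
    have hb : 1 ≤ k * j := Nat.mul_pos hk (by omega)
    split_ifs with h h'
    · exact (LD.one_sub _ hb).congr fun m _ _ => by
        simp [(show Odd j from Nat.odd_iff.2 (by omega)).neg_one_pow, loopOk, hj2, h]
    · exact (LD.one_sub _ hb).inv.congr fun m _ _ => by
        simp [(show Even j from Nat.even_iff.2 (by omega)).neg_one_pow, loopOk, hj2, h']
    · exact LD.one.congr fun m _ _ => by simp [loopOk, h, h']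
  · rw [Finset.sum_apply, sum_subset (Icc_subset_Icc_left (show 1 ≤ 2 by omega)),
      sum_Icc_eq_sum_divisors h1 hm _ fun j hj => by simp [geo_eq_zero _ hj], overLen_apply]
    · refine sum_congr rfl fun j hj => ?_
      rw [geo_mon _ _ hk hj]
      simp only [one_pow]
      ring
    · intro j hj hj'
      simp only [mem_Icc] at hj hj'
      simp [loopOk, show ¬ 2 ≤ j by omega]

theorem ld_cycFig (x : K) : LD N (cycFig x N) fun m =>
    ∑ j ∈ m.divisors, if 3 ≤ j ∧ j % 4 = 1 then -(j * x ^ m) else 0 := by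
  refine (LD.prod (g := fun j m => if 3 ≤ j ∧ j % 4 = 1 then -geo (x ^ j) j m else 0)
    fun j hj => ?_).congr fun m h1 hm => ?_
  · have hj2 := (mem_Icc.1 hj).1
    split_ifs with h h' h'
    · exact LD.one_sub _ (by omega)
    · exact absurd ⟨hj2, h⟩ h'
    · exact absurd h'.2 h
    · exact LD.one
  · rw [Finset.sum_apply, sum_subset (Icc_subset_Icc_left (show 1 ≤ 3 by omega)),
      sum_Icc_eq_sum_divisors h1 hm _ fun j hj => by simp [geo, hj]]
    · refine sum_congr rfl fun j hj => ?_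
      rw [geo, if_pos (Nat.dvd_of_mem_divisors hj), ← pow_mul,
        Nat.mul_div_cancel' (Nat.dvd_of_mem_divisors hj)]
    · intro j hj hj'
      simp only [mem_Icc] at hj hj'
      simp [show ¬ 3 ≤ j by omega]

variable {T : Type} [DecidableEq T] [Fintype T]

theorem fixc_cast (R : Type*) [CommRing R] (τ : Equiv.Perm T) (n : ℕ) : (fixc τ n : R) =
    ∑ k ∈ Icc 1 (Fintype.card T), (τ.partition.parts.count k : R) * dv R n k := by
  rw [fixc_eq_sum]
  push_cast
  rfl

theorem coeff_Spart [CharZero K] (x : K) (τ : Equiv.Perm T) {s : ℕ} (hs : s ≤ N) :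
    coeff s (cycFig x N * pairTerm (Fintype.card T) (fun k => τ.partition.parts.count k)
      (pathFig 1 x N) (pathFig (-1) x N) (loopFig x N)) = aCoef x τ s := by
  have h1 := (ld_cycFig (N := N) x).mul (rel_pairTerm (LD N) LD.one (fun _ _ _ _ => LD.mul)
    (Fintype.card T) (fun k => τ.partition.parts.count k) (fun k hk => ld_pathFig 1 x hk)
    (fun k hk => ld_pathFig (-1) x hk) (fun k hk => ld_loopFig x hk))
  have h2 := h1.congr (l' := fun m => kCoef x τ m / 2) fun m _ _ => by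
    have h3 := map_pairSum (Pi.evalAddMonoidHom (fun _ : ℕ => K) m) (Fintype.card T)
      (fun k => τ.partition.parts.count k)
      (fun k m => overLen x m fun j => dv K (m / j) k * ((1 : K) ^ (j / 2)) ^ (m / j / k))
      (fun k m => overLen x m fun j => dv K (m / j) k * ((-1 : K) ^ (j / 2)) ^ (m / j / k))
      (fun k m => overLen x m fun j => dv K (m / j) k * loopOk K j)
    simp only [Pi.evalAddMonoidHom_apply] at h3
    rw [Pi.add_apply, h3, ← map_pairSum, overLen_apply, ← sum_add_distrib, kCoef, sum_div]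
    refine sum_congr rfl fun j hj => ?_
    have hj0 := Nat.pos_of_mem_divisors hj
    have h4 := map_pairSum (Pi.evalAddMonoidHom (fun _ : ℕ => K) j) (Fintype.card T)
      (fun k => τ.partition.parts.count k)
      (fun k j => dv K (m / j) k * ((1 : K) ^ (j / 2)) ^ (m / j / k))
      (fun k j => dv K (m / j) k * ((-1 : K) ^ (j / 2)) ^ (m / j / k))
      (fun k j => dv K (m / j) k * loopOk K j)
    simp only [Pi.evalAddMonoidHom_apply] at h4
    rw [h4]
    simp only [one_pow, mul_one]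
    have h5 := two_mul_pairSum (R := K) (ε := (-1) ^ (j / 2))
      (by rw [← pow_mul, mul_comm, pow_mul]; simp) (loopOk K j) (m / j) (Fintype.card T)
      fun k => τ.partition.parts.count k
    simp only [← fixc_cast] at h5
    have h6 : (if 3 ≤ j ∧ j % 4 = 1 then -(j * x ^ m) else 0) =
        (-1) ^ j * x ^ m * kC K j / 2 := by
      unfold kC
      by_cases h3 : 3 ≤ j <;> by_cases h4 : j % 4 = 1 <;> simp [h3, h4]
      rw [(show Odd j from Nat.odd_iff.2 (by omega)).neg_one_pow]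
      ring
    have h7 : (if j = 1 then (fixc τ (m / j) : K) else 0) * (1 + (-1) ^ (j / 2)) =
        (1 + (-1) ^ (j / 2) - 2 * loopOk K j) * fixc τ (m / j) := by
      unfold loopOk
      by_cases h1 : j = 1
      · subst h1
        simp [mul_comm]
      · rw [if_neg h1]
        split_ifs with h
        · rw [(show Even (j / 2) from Nat.even_iff.2 (by omega)).neg_one_pow]
          ring
        · rw [(show Odd (j / 2) from Nat.odd_iff.2 (by omega)).neg_one_pow]
          ring
    rw [h6, kP]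
    linear_combination ((-1) ^ j * (j * x ^ m * x ^ (m / j)) / 2) * h5 +
      ((-1) ^ j * (j * x ^ m * x ^ (m / j)) / 2) * h7
  refine h2.coeff_eq (by simp [aCoef, Wn_zero]) (fun s _ => ?_) s hs
  have := aCoef_rec x τ s
  simp only [div_mul_eq_mul_div, ← sum_div]
  linear_combination this / 2

end Pool.Agent.MP_5f0aae_co
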