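import Pool.Agent.MP_5f0aae_co.Walk

/-! The path and cycle models and their embeddings. -/

namespace Pool.Agent.MP_5f0aae_co

open Finset Equiv Function Sum

variable {T S : Type} [DecidableEq T] [DecidableEq S]

section Path

def pathSeq (m : ℕ) (α β : T) (k : ℕ) : T ⊕ Fin (m + 1) :=
  if k = 0 then inl α else if h : k - 1 < m + 1 then inr ⟨k - 1, h⟩ else inl β

def pathNb (m : ℕ) (α β : T) (i : Fin (m + 1)) : Finset (T ⊕ Fin (m + 1)) :=
  {pathSeq m α β i, pathSeq m α β (i + 2)}

omit [DecidableEq T] in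
@[simp] theorem pathSeq_zero (m : ℕ) (α β : T) : pathSeq m α β 0 = inl α := rfl

omit [DecidableEq T] in
theorem pathSeq_succ {m : ℕ} (α β : T) {k : ℕ} (hk : k < m + 1) :
    pathSeq m α β (k + 1) = inr ⟨k, hk⟩ := by
  simp [pathSeq, hk]

omit [DecidableEq T] in
@[simp] theorem pathSeq_last (m : ℕ) (α β : T) : pathSeq m α β (m + 2) = inl β := by
  simp [pathSeq]

/-- The walk that belongs to a map from the path model. -/
def pathWalk {m : ℕ} (α β : T) (e : Fin (m + 1) → S) (k : ℕ) : T ⊕ S :=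
  Sum.map id e (pathSeq m α β k)

omit [DecidableEq T] [DecidableEq S] in
@[simp] theorem pathWalk_zero {m : ℕ} (α β : T) (e : Fin (m + 1) → S) :
    pathWalk α β e 0 = inl α := rfl

omit [DecidableEq T] [DecidableEq S] in
theorem pathWalk_succ {m : ℕ} (α β : T) (e : Fin (m + 1) → S) {k : ℕ} (hk : k < m + 1) :
    pathWalk α β e (k + 1) = inr (e ⟨k, hk⟩) := by
  simp [pathWalk, pathSeq_succ α β hk]

omit [DecidableEq T] [DecidableEq S] in
@[simp] theorem pathWalk_last {m : ℕ} (α β : T) (e : Fin (m + 1) → S) :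
    pathWalk α β e (m + 2) = inl β := by
  simp [pathWalk]

theorem hom_path_iff {m : ℕ} {α β : T} {e : Fin (m + 1) → S} {nb : S → Finset (T ⊕ S)} :
    Hom id e (pathNb m α β) nb ↔ ∀ k < m + 1, Loc nb (pathWalk α β e) k := by
  constructor
  · intro h k hk
    refine ⟨e ⟨k, hk⟩, pathWalk_succ α β e hk, ?_⟩
    rw [h]
    simp [pathNb, pathWalk]
  · intro h i
    obtain ⟨w, hw1, hw⟩ := h i i.isLt
    rw [pathWalk_succ α β e i.isLt] at hw1
    rw [inr_injective hw1, hw]
    simp [pathNb, pathWalk]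

omit [DecidableEq T] in
theorem inr_eq_pathSeq {m : ℕ} {α β : T} {u : Fin (m + 1)} {k : ℕ} :
    inr u = pathSeq m α β k ↔ k = u + 1 := by
  have hu := u.isLt
  unfold pathSeq
  split_ifs with h1 h2
  · simp [h1]
  · simp only [inr.injEq, Fin.ext_iff]
    omega
  · simp only [false_iff]
    omega

theorem inr_mem_pathNb {m : ℕ} {α β : T} {u v : Fin (m + 1)} :
    inr u ∈ pathNb m α β v ↔ (v : ℕ) = u + 1 ∨ (u : ℕ) = v + 1 := by
  simp only [pathNb, mem_insert, mem_singleton, inr_eq_pathSeq]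
  omega

theorem pre_pathNb {m : ℕ} {α β : T} (h : m = 0 → α ≠ β) : Pre (pathNb m α β) where
  card i := by
    have hi := i.isLt
    refine card_pair ?_
    unfold pathSeq
    split_ifs <;> simp_all
  symm u v := by
    simp only [inr_mem_pathNb]
    omega
  irrefl v := by
    simp only [inr_mem_pathNb]
    omega

theorem conn_pathNb (m : ℕ) (α β : T) : Conn (pathNb m α β) := by
  intro P hP i i' hi
  have up : ∀ k (hk : k + 1 < m + 1), P ⟨k, by omega⟩ → P ⟨k + 1, hk⟩ := fun k hk h =>
    hP _ _ h (by simp [pathNb, pathSeq_succ α β hk])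
  have down : ∀ k (hk : k + 1 < m + 1), P ⟨k + 1, hk⟩ → P ⟨k, by omega⟩ := fun k hk h =>
    hP _ _ h (by simp [pathNb, pathSeq_succ α β (show k < m + 1 by omega)])
  have h0 : ∀ k (hk : k < m + 1), P ⟨k, hk⟩ ↔ P 0 := by
    intro k
    induction k with
    | zero => exact fun _ => Iff.rfl
    | succ k ih => exact fun hk => ⟨fun h => (ih _).1 (down k hk h), fun h => up k hk ((ih _).2 h)⟩
  exact (h0 _ i'.isLt).2 ((h0 _ i.isLt).1 hi)

theorem td_pathNb {m : ℕ} {α β : T} (h : m = 0 → α ≠ β) : td (pathNb m α β) = 2 * 1 := by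
  have key : ∀ i : Fin (m + 1), tdv (pathNb m α β i) =
      (if i = 0 then 1 else 0) + (if i = Fin.last m then 1 else 0) := by
    intro i
    have hi := i.isLt
    have hne : pathSeq m α β i ≠ pathSeq m α β (i + 2) := by
      have := (pre_pathNb h).card i
      intro he
      rw [pathNb, he] at this
      simp at this
    rw [tdv, card_filter, pathNb, sum_pair hne]
    simp only [pathSeq, Fin.ext_iff]
    split_ifs <;> simp_all <;> omega
  simp [td, key, sum_add_distrib]

theorem hom_path_map (φ : T → T) (m : ℕ) (α β : T) :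
    Hom φ id (pathNb m α β) (pathNb m (φ α) (φ β)) := by
  intro i
  have : ∀ k, Sum.map φ id (pathSeq m α β k) = pathSeq m (φ α) (φ β) k := by
    intro k
    unfold pathSeq
    split_ifs <;> rfl
  simp [pathNb, this]

theorem hom_path_rev (m : ℕ) (α β : T) :
    Hom id Fin.rev (pathNb m β α) (pathNb m α β) := by
  intro i
  have hi := i.isLt
  have : ∀ k ≤ m + 2, Sum.map id Fin.rev (pathSeq m β α k) = pathSeq m α β (m + 2 - k) := by
    intro k hk
    unfold pathSeq
    split_ifs <;> simp_all [Fin.ext_iff] <;> omega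
  simp only [pathNb, image_insert, image_singleton]
  rw [this _ (by omega), this _ (by omega), pair_comm]
  have h1 : m + 2 - (i + 2) = (Fin.rev i : ℕ) := by simp
  have h2 : m + 2 - i = (Fin.rev i : ℕ) + 2 := by
    simp only [Fin.val_rev]
    omega
  rw [h1, h2]

variable {nb : S → Finset (T ⊕ S)}

theorem path_det_length (hp : Pre nb) {m m' : ℕ} {α β β' : T} {e : Fin (m + 1) → S}
    {e' : Fin (m' + 1) → S} (h : Hom id e (pathNb m α β) nb) (h' : Hom id e' (pathNb m' α β') nb)
    (h0 : e 0 = e' 0) : m' ≤ m := by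
  by_contra hlt
  have := (fwd hp (q := pathWalk α β e) (r := pathWalk α β' e') rfl
    (by rw [pathWalk_succ α β e (Nat.succ_pos m), pathWalk_succ α β' e' (Nat.succ_pos m')]
        exact congrArg inr h0) (m + 1) (hom_path_iff.1 h)
    (fun k hk => hom_path_iff.1 h' k (by omega))).2
  rw [pathWalk_last, pathWalk_succ α β' e' (show m + 1 < m' + 1 by omega)] at this
  simp at this

theorem path_det (hp : Pre nb) {m : ℕ} {α β β' : T} {e e' : Fin (m + 1) → S}
    (h : Hom id e (pathNb m α β) nb) (h' : Hom id e' (pathNb m α β') nb)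
    (h0 : e 0 = e' 0) : β = β' ∧ e = e' := by
  have key := fun c (hc : c ≤ m + 1) => (fwd hp (q := pathWalk α β e) (r := pathWalk α β' e') rfl
    (by rw [pathWalk_succ α β e (Nat.succ_pos m), pathWalk_succ α β' e' (Nat.succ_pos m)]
        exact congrArg inr h0) c (fun k hk => hom_path_iff.1 h k (by omega))
    (fun k hk => hom_path_iff.1 h' k (by omega))).2
  constructor
  · simpa using key (m + 1) le_rfl
  · funext i
    have := key i (by omega)
    rw [pathWalk_succ α β e i.isLt, pathWalk_succ α β' e' i.isLt] at this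
    exact inr_injective this

theorem path_det_pos (hp : Pre nb) {m m' : ℕ} {α β α' β' : T} {e : Fin (m + 1) → S}
    {e' : Fin (m' + 1) → S} (h : Hom id e (pathNb m α β) nb) (h' : Hom id e' (pathNb m' α' β') nb)
    {i i' : ℕ} (hi : i < m + 1) (hi' : i' < m' + 1) (hle : i ≤ i')
    (h0 : pathWalk α β e i = pathWalk α' β' e' i')
    (h1 : pathWalk α β e (i + 1) = pathWalk α' β' e' (i' + 1)) :
    i = i' ∧ α = α' ∧ e 0 = e' 0 := by
  obtain ⟨c, rfl⟩ := Nat.exists_eq_add_of_le' hle
  have := bwd hp (q := pathWalk α β e) (r := fun k => pathWalk α' β' e' (c + k)) i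
    (fun k hk => hom_path_iff.1 h k (by omega))
    (fun k hk => (hom_path_iff.1 h' (c + k) (by omega)).shift) h0 h1
  rcases c with _ | c
  · simp only [Nat.zero_add, pathWalk_zero, inl.injEq] at this
    refine ⟨by omega, this.1, ?_⟩
    have h2 := this.2
    rw [pathWalk_succ α β e (Nat.succ_pos m), pathWalk_succ α' β' e' (Nat.succ_pos m')] at h2
    exact inr_injective h2
  · have h2 := this.1
    simp only [Nat.add_zero] at h2
    rw [pathWalk_succ α' β' e' (show c < m' + 1 by omega)] at h2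
    simp at h2

theorem exists_path_of_walk (hp : Pre nb) {q : ℕ → T ⊕ S} {α β : T} {m : ℕ} (h0 : q 0 = inl α)
    (hq : ∀ k < m + 1, Loc nb q k) (hl : q (m + 2) = inl β) :
    ∃ e : Fin (m + 1) → S, Injective e ∧ Hom id e (pathNb m α β) nb ∧ (m = 0 → α ≠ β) ∧
      inr (e 0) = q 1 := by
  choose w hw1 hw using hq
  have hq : ∀ k < m + 1, Loc nb q k := fun k hk => ⟨w k hk, hw1 k hk, hw k hk⟩
  let e : Fin (m + 1) → S := fun i => w i i.isLt
  have hqe : ∀ k ≤ m + 2, pathWalk α β e k = q k := by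
    intro k hk
    rcases k with _ | k
    · exact h0.symm
    · rcases Nat.lt_or_ge k (m + 1) with hk' | hk'
      · rw [pathWalk_succ α β e hk', hw1 k hk']
      · obtain rfl : k = m + 1 := by omega
        rw [pathWalk_last, hl]
  have hinj := walk_injOn hp hq (by
    rintro P hP1 hP ⟨hP0, -⟩
    obtain ⟨P, rfl⟩ : ∃ P', P = P' + 1 := ⟨P - 1, by omega⟩
    rw [hw1 P (by omega), h0] at hP0
    simp at hP0)
  refine ⟨e, fun i i' hii' => ?_, hom_path_iff.2 fun k hk => ?_, ?_, (hw1 0 _).symm⟩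
  · have h1 : q (i + 1) = q (i' + 1) := by
      rw [hw1 i i.isLt, hw1 i' i'.isLt]
      exact congrArg inr hii'
    have hi := i.isLt
    have hi' := i'.isLt
    rcases lt_trichotomy (i : ℕ) i' with h | h | h
    · exact absurd h1 (hinj _ (by omega) _ (by omega) (by omega))
    · exact Fin.ext h
    · exact absurd h1.symm (hinj _ (by omega) _ (by omega) (by omega))
  · refine ⟨w k hk, by rw [hqe _ (by omega), hw1], ?_⟩
    rw [hqe _ (by omega), hqe _ (by omega), hw]
  · rintro rfl rfl
    exact (hq 0 (by omega)).ne hp (h0.trans hl.symm)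

theorem exists_path_of_dart [Finite T] [Finite S] (hp : Pre nb) {α : T} {v : S}
    (h : inl α ∈ nb v) : ∃ (m : ℕ) (β : T) (e : Fin (m + 1) → S), Injective e ∧
      Hom id e (pathNb m α β) nb ∧ (m = 0 → α ≠ β) ∧ e 0 = v := by
  obtain ⟨q, h0, h1, hq | ⟨m, β, hq, hl⟩⟩ := walk_cases hp h
  · obtain ⟨P, hP, hP0, -⟩ := exists_period hp hq
    obtain ⟨P, rfl⟩ : ∃ P', P = P' + 1 := ⟨P - 1, by omega⟩
    obtain ⟨w, hw, -⟩ := hq P
    rw [hw, h0] at hP0
    simp at hP0
  · obtain ⟨e, he1, he2, he3, he4⟩ := exists_path_of_walk hp h0 hq hl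
    exact ⟨m, β, e, he1, he2, he3, inr_injective (he4.trans h1)⟩

end Path

section Cycle

def cycNb (T : Type) [DecidableEq T] (m : ℕ) (z : ZMod (m + 3)) : Finset (T ⊕ ZMod (m + 3)) :=
  {inr (z - 1), inr (z + 1)}

theorem zmod_natCast_ne_zero (m : ℕ) {k : ℕ} (h0 : 0 < k) (h : k < m + 3) :
    (k : ZMod (m + 3)) ≠ 0 := by
  rw [Ne, ZMod.natCast_eq_zero_iff]
  exact Nat.not_dvd_of_pos_of_lt h0 h

theorem zmod_one_ne_zero (m : ℕ) : (1 : ZMod (m + 3)) ≠ 0 := by
  simpa using zmod_natCast_ne_zero m one_pos (by omega)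

theorem zmod_two_ne_zero (m : ℕ) : (2 : ZMod (m + 3)) ≠ 0 := by
  simpa using zmod_natCast_ne_zero m two_pos (by omega)

theorem pre_cycNb (m : ℕ) : Pre (cycNb T m) where
  card z := by
    refine card_pair fun h => zmod_two_ne_zero m ?_
    have := inr_injective h
    linear_combination -this
  symm u v := by
    simp only [cycNb, mem_insert, mem_singleton, inr.injEq]
    rintro (rfl | rfl) <;> simp
  irrefl v := by
    simp only [cycNb, mem_insert, mem_singleton, inr.injEq, not_or]
    exact ⟨fun h => zmod_one_ne_zero m (by linear_combination h),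
      fun h => zmod_one_ne_zero m (by linear_combination -h)⟩

theorem conn_cycNb (m : ℕ) : Conn (cycNb T m) := by
  intro P hP i i' hi
  have key : ∀ k : ℕ, P (i + k) := by
    intro k
    induction k with
    | zero => simpa using hi
    | succ k ih => exact hP _ _ ih (by simp [cycNb, add_assoc])
  simpa using key (i' - i).val

theorem td_cycNb (m : ℕ) : td (cycNb T m) = 2 * 0 := by
  simp [td, tdv, cycNb]

theorem hom_cyc_rot (φ : T → T) (m : ℕ) (c : ZMod (m + 3)) :
    Hom φ (fun z => c + z) (cycNb T m) (cycNb T m) := by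
  intro z
  simp [cycNb, add_assoc, add_sub_assoc]

theorem hom_cyc_refl (φ : T → T) (m : ℕ) (c : ZMod (m + 3)) :
    Hom φ (fun z => c - z) (cycNb T m) (cycNb T m) := by
  intro z
  simp only [cycNb, image_insert, image_singleton, Sum.map_inr]
  rw [pair_comm]
  congr 3 <;> ring

variable {nb : S → Finset (T ⊕ S)}

theorem loc_cyc {m : ℕ} {φ : T → T} {e : ZMod (m + 3) → S} (h : Hom φ e (cycNb T m) nb)
    (c : ZMod (m + 3)) (k : ℕ) : Loc nb (fun k : ℕ => inr (e (c + k))) k := by
  refine ⟨_, rfl, ?_⟩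
  rw [h]
  simp only [cycNb, image_insert, image_singleton, Sum.map_inr]
  congr 4 <;> push_cast <;> ring

theorem cyc_det_walk (hp : Pre nb) {m m' : ℕ} {φ φ' : T → T} {e : ZMod (m + 3) → S}
    {e' : ZMod (m' + 3) → S}
    (h : Hom φ e (cycNb T m) nb) (h' : Hom φ' e' (cycNb T m') nb) (h0 : e 0 = e' 0)
    (h1 : e 1 = e' 1) (k : ℕ) : e k = e' k := by
  have := (fwd hp (q := fun k : ℕ => inr (e (0 + k))) (r := fun k : ℕ => inr (e' (0 + k)))
    (by simpa using h0) (by simpa using h1) k (fun k _ => loc_cyc h 0 k)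
    (fun k _ => loc_cyc h' 0 k)).1
  simpa using this

theorem cyc_det_length (hp : Pre nb) {m m' : ℕ} {e : ZMod (m + 3) → S} {e' : ZMod (m' + 3) → S}
    (h : Hom id e (cycNb T m) nb) (h' : Hom id e' (cycNb T m') nb) (he' : Injective e')
    (h0 : e 0 = e' 0) (h1 : e 1 = e' 1) : m' ≤ m := by
  by_contra hlt
  have := cyc_det_walk hp h h' h0 h1 (m + 3)
  rw [ZMod.natCast_self, h0] at this
  exact zmod_natCast_ne_zero m' (by omega) (by omega) (he' this).symm

theorem cyc_det (hp : Pre nb) {m : ℕ} {φ φ' : T → T} {e e' : ZMod (m + 3) → S}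
    (h : Hom φ e (cycNb T m) nb) (h' : Hom φ' e' (cycNb T m) nb) (h0 : e 0 = e' 0)
    (h1 : e 1 = e' 1) : e = e' := by
  funext z
  simpa using cyc_det_walk hp h h' h0 h1 z.val

theorem path_ne_cyc (hp : Pre nb) {m m' : ℕ} {α β : T} {e : Fin (m + 1) → S}
    {e' : ZMod (m' + 3) → S} (h : Hom id e (pathNb m α β) nb) (h' : Hom id e' (cycNb T m') nb)
    {i : ℕ} (hi : i < m + 1) (h0 : pathWalk α β e i = inr (e' 0))
    (h1 : pathWalk α β e (i + 1) = inr (e' 1)) : False := by
  have := (bwd hp (q := pathWalk α β e) (r := fun k : ℕ => inr (e' (-(i : ZMod (m' + 3)) + k))) i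
    (fun k hk => hom_path_iff.1 h k (by omega)) (fun k _ => loc_cyc h' _ k)
    (by simpa using h0) (by simpa using h1)).1
  simp at this

theorem exists_cyc_of_walk [Finite T] [Finite S] (hp : Pre nb) {q : ℕ → T ⊕ S}
    (hq : ∀ k, Loc nb q k) : ∃ (m : ℕ) (e : ZMod (m + 3) → S), Injective e ∧
      Hom id e (cycNb T m) nb ∧ ∀ k : ℕ, inr (e k) = q k := by
  classical
  have hex := exists_period hp hq
  obtain ⟨hP1, hP0, hP1'⟩ := Nat.find_spec hex
  have hinj := walk_injOn hp (L := Nat.find hex) (fun k _ => hq k)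
    fun P h1 hP h => Nat.find_min hex hP ⟨h1, h⟩
  have h3 : 3 ≤ Nat.find hex := by
    by_contra hlt
    obtain h | h : Nat.find hex = 1 ∨ Nat.find hex = 2 := by omega
    · rw [h] at hP0
      exact (hq 0).ne_succ hp hP0.symm
    · rw [h] at hP0
      exact (hq 0).ne hp hP0.symm
  obtain ⟨m, hm⟩ : ∃ m, Nat.find hex = m + 3 := ⟨Nat.find hex - 3, by omega⟩
  rw [hm] at hP0 hP1' hinj
  have hper : Function.Periodic q (m + 3) := by
    intro k
    have := (fwd hp (q := fun i => q (m + 3 + i)) (r := q) hP0 hP1' k (fun i _ => (hq _).shift)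
      (fun i _ => hq i)).1
    rw [add_comm]
    exact this
  choose w hw1 hw using hq
  let e : ZMod (m + 3) → S := fun z => w ((z - 1).val)
  have he : ∀ z, inr (e z) = q ((z - 1).val + 1) := fun z => (hw1 _).symm
  have hmod : ∀ a b : ℕ, (a : ZMod (m + 3)) = b → q a = q b := by
    intro a b hab
    rw [ZMod.natCast_eq_natCast_iff'] at hab
    rw [← hper.map_mod_nat a, ← hper.map_mod_nat b, hab]
  have hek : ∀ k : ℕ, inr (e k) = q k := fun k => by
    rw [he]
    exact hmod _ _ (by simp)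
  refine ⟨m, e, fun z z' hzz' => ?_, fun z => ?_, hek⟩
  · have h1 : q ((z - 1).val + 1) = q ((z' - 1).val + 1) := by rw [← he, ← he, hzz']
    have hz := ZMod.val_lt (z - 1)
    have hz' := ZMod.val_lt (z' - 1)
    rcases lt_trichotomy (z - 1).val (z' - 1).val with h | h | h
    · exact absurd h1 (hinj _ (by omega) _ (by omega) (by omega))
    · have := ZMod.val_injective _ h
      linear_combination this
    · exact absurd h1.symm (hinj _ (by omega) _ (by omega) (by omega))
  · change nb (w _) = _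
    rw [hw, ← hek, ← hek]
    have h1 : (((z - 1).val : ℕ) : ZMod (m + 3)) = z - 1 := by simp
    have h2 : (((z - 1).val + 2 : ℕ) : ZMod (m + 3)) = z + 1 := by
      rw [Nat.cast_add, h1]
      push_cast
      ring
    rw [h1, h2]
    simp [cycNb]

end Cycle

end Pool.Agent.MP_5f0aae_co
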