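import Pool.Agent.MP_5f0aae_co.Rec
import Pool.Agent.MP_5f0aae_co.Defs

/-! Invariant subsets, orbits and cycle types. -/

namespace Pool.Agent.MP_5f0aae_co

open Finset Equiv Function

variable {Ω : Type} [DecidableEq Ω] [Fintype Ω] {K : Type*} [Field K]

def Inv (π : Perm Ω) (A : Finset Ω) : Prop := ∀ a, π a ∈ A ↔ a ∈ A

instance (π : Perm Ω) : DecidablePred (Inv π) := fun _ => by unfold Inv; infer_instance

def invs (π : Perm Ω) (D : Finset Ω) : Finset (Finset Ω) := D.powerset.filter (Inv π)

theorem mem_invs {π : Perm Ω} {D A : Finset Ω} : A ∈ invs π D ↔ A ⊆ D ∧ Inv π A := by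
  simp [invs]

def orb (π : Perm Ω) (ω : Ω) : Finset Ω := univ.filter (π.SameCycle ω)

theorem mem_orb {π : Perm Ω} {ω a : Ω} : a ∈ orb π ω ↔ π.SameCycle ω a := by simp [orb]

theorem self_mem_orb (π : Perm Ω) (ω : Ω) : ω ∈ orb π ω := mem_orb.2 Perm.SameCycle.rfl

theorem inv_orb (π : Perm Ω) (ω : Ω) : Inv π (orb π ω) := fun a => by
  simp [mem_orb]

omit [DecidableEq Ω] [Fintype Ω] in
theorem Inv.pow {π : Perm Ω} {A : Finset Ω} (h : Inv π A) (n : ℕ) (a : Ω) :
    (π ^ n) a ∈ A ↔ a ∈ A := by
  induction n with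
  | zero => simp
  | succ n ih => rw [pow_succ', Perm.mul_apply, h, ih]

theorem Inv.mem_iff {π : Perm Ω} {A : Finset Ω} (h : Inv π A) {ω a : Ω} (ha : a ∈ orb π ω) :
    a ∈ A ↔ ω ∈ A := by
  obtain ⟨i, -, rfl⟩ := (mem_orb.1 ha).exists_pow_eq'
  exact h.pow i ω

omit [Fintype Ω] in
theorem Inv.sdiff {π : Perm Ω} {A B : Finset Ω} (hA : Inv π A) (hB : Inv π B) : Inv π (A \ B) :=
  fun a => by simp only [mem_sdiff, hA a, hB a]

omit [Fintype Ω] in
theorem Inv.union {π : Perm Ω} {A B : Finset Ω} (hA : Inv π A) (hB : Inv π B) : Inv π (A ∪ B) :=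
  fun a => by simp only [mem_union, hA a, hB a]

theorem isCycleOn_orb (π : Perm Ω) (ω : Ω) : π.IsCycleOn (orb π ω) :=
  ⟨π.bijOn (inv_orb π ω), fun _ ha _ hb => (mem_orb.1 ha).symm.trans (mem_orb.1 hb)⟩

theorem sum_invs_step {π : Perm Ω} {D : Finset Ω} (hD : Inv π D) {ω : Ω} (hω : ω ∈ D)
    (w : Finset Ω → K) (c : K)
    (hw : ∀ A, Inv π A → Disjoint A (orb π ω) → w (A ∪ orb π ω) = w A * c) :
    ∑ A ∈ invs π D, w A = (1 + c) * ∑ A ∈ invs π (D \ orb π ω), w A := by
  rw [← sum_filter_add_sum_filter_not (invs π D) (fun A => ω ∉ A), add_mul, one_mul]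
  congr 1
  · refine sum_congr ?_ fun _ _ => rfl
    ext A
    simp only [mem_filter, mem_invs, subset_sdiff, disjoint_left]
    constructor
    · rintro ⟨⟨h1, h2⟩, h3⟩
      exact ⟨⟨h1, fun a ha ha' => h3 ((h2.mem_iff ha').1 ha)⟩, h2⟩
    · rintro ⟨⟨h1, h3⟩, h2⟩
      exact ⟨⟨h1, h2⟩, fun h => h3 h (self_mem_orb π ω)⟩
  · rw [mul_sum]
    symm
    refine sum_nbij' (fun A => A ∪ orb π ω) (fun A => A \ orb π ω) ?_ ?_ ?_ ?_ ?_
    · intro A hA
      simp only [mem_filter, mem_invs, subset_sdiff, not_not] at hA ⊢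
      refine ⟨⟨union_subset hA.1.1 fun a ha => (hD.mem_iff ha).2 hω, hA.2.union (inv_orb π ω)⟩, ?_⟩
      exact mem_union_right _ (self_mem_orb π ω)
    · intro A hA
      simp only [mem_filter, mem_invs, not_not] at hA ⊢
      exact ⟨sdiff_subset_sdiff hA.1.1 Subset.rfl, hA.1.2.sdiff (inv_orb π ω)⟩
    · intro A hA
      simp only [mem_invs, subset_sdiff] at hA
      exact union_sdiff_cancel_right hA.1.2
    · intro A hA
      simp only [mem_filter, mem_invs, not_not] at hA
      exact sdiff_union_of_subset fun a ha => (hA.1.2.mem_iff ha).2 hA.2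
    · intro A hA
      simp only [mem_invs, subset_sdiff] at hA
      rw [hw A hA.2 hA.1.2, mul_comm]

/-- The sum of the members of `M` that divide `n`. -/
def dsum (M : Multiset ℕ) (n : ℕ) : ℕ := (M.map fun L => if L ∣ n then L else 0).sum

theorem exists_orbit_sizes (π : Perm Ω) (x : K) (D : Finset Ω) (hD : Inv π D) :
    ∃ M : Multiset ℕ, 0 ∉ M ∧ (∀ n, (D.filter fun a => (π ^ n) a = a).card = dsum M n) ∧
      ∑ A ∈ invs π D, x ^ A.card = (M.map fun L => 1 + x ^ L).prod := by
  induction D using Finset.strongInduction with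
  | H D ih =>
    rcases D.eq_empty_or_nonempty with rfl | ⟨ω, hω⟩
    · refine ⟨0, by simp, fun n => by simp [dsum], ?_⟩
      have : invs π ∅ = {∅} := by
        ext A
        simp only [mem_invs, subset_empty, mem_singleton, and_iff_left_iff_imp]
        rintro rfl
        exact hD
      simp [this]
    · have hsub : orb π ω ⊆ D := fun a ha => (hD.mem_iff ha).2 hω
      obtain ⟨M, hM0, hM1, hM2⟩ := ih (D \ orb π ω)
        (sdiff_ssubset hsub ⟨ω, self_mem_orb π ω⟩) (hD.sdiff (inv_orb π ω))
      refine ⟨(orb π ω).card ::ₘ M, ?_, fun n => ?_, ?_⟩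
      · simp only [Multiset.mem_cons, not_or]
        exact ⟨(card_pos.2 ⟨ω, self_mem_orb π ω⟩).ne, hM0⟩
      · rw [← sdiff_union_of_subset hsub, filter_union,
          card_union_of_disjoint (disjoint_filter_filter sdiff_disjoint), hM1]
        simp only [dsum, Multiset.map_cons, Multiset.sum_cons]
        rw [add_comm]
        congr 1
        split_ifs with h
        · rw [filter_true_of_mem fun a ha => ((isCycleOn_orb π ω).pow_apply_eq ha).2 h]
        · rw [filter_false_of_mem fun a ha h' => h (((isCycleOn_orb π ω).pow_apply_eq ha).1 h')]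
          rfl
      · rw [sum_invs_step hD hω _ (x ^ (orb π ω).card), hM2]
        · simp
        · intro A _ hA
          rw [card_union_of_disjoint hA, pow_add]

theorem sum_map_eq_sum_count {A : Type*} [AddCommMonoid A] {M : Multiset ℕ} {s : Finset ℕ}
    (hs : ∀ L ∈ M, L ∈ s) (f : ℕ → A) : (M.map f).sum = ∑ k ∈ s, M.count k • f k := by
  rw [Finset.sum_multiset_map_count]
  refine sum_subset (fun L hL => hs L (Multiset.mem_toFinset.1 hL)) fun k _ hk => ?_
  rw [Multiset.count_eq_zero.2 (by simpa using hk), zero_smul]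

theorem dsum_eq (M : Multiset ℕ) {n : ℕ} (hn : n ≠ 0) :
    dsum M n = ∑ k ∈ n.divisors, M.count k * k := by
  induction M using Multiset.induction_on with
  | empty => simp [dsum]
  | cons a M ih =>
    have : dsum (a ::ₘ M) n = (if a ∣ n then a else 0) + dsum M n := by simp [dsum]
    rw [this, ih]
    simp only [Multiset.count_cons, add_mul, sum_add_distrib, ite_mul, one_mul, zero_mul,
      sum_ite_eq', Nat.mem_divisors, hn, ne_eq, not_false_eq_true, and_true]
    ring

theorem eq_of_dsum_eq {M M' : Multiset ℕ} (h0 : 0 ∉ M) (h0' : 0 ∉ M')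
    (h : ∀ n, n ≠ 0 → dsum M n = dsum M' n) : M = M' := by
  ext n
  induction n using Nat.strong_induction_on with
  | _ n ih =>
    rcases Nat.eq_zero_or_pos n with rfl | hn
    · rw [Multiset.count_eq_zero.2 h0, Multiset.count_eq_zero.2 h0']
    · have h1 := h n hn.ne'
      rw [dsum_eq M hn.ne', dsum_eq M' hn.ne', ← Nat.cons_self_properDivisors hn.ne', sum_cons,
        sum_cons, sum_congr rfl (g := fun k => M'.count k * k)
          fun k hk => by rw [ih k (Nat.mem_properDivisors.1 hk).2]] at h1
      exact Nat.eq_of_mul_eq_mul_right hn (Nat.add_right_cancel h1)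

theorem fixc_eq_dsum (τ : Perm Ω) (n : ℕ) : fixc τ n = dsum τ.partition.parts n := by
  have h1 : (τ.support.filter fun a => (τ ^ n) a = a).card = dsum τ.cycleType n := by
    have hsupp : τ.support = τ.cycleFactorsFinset.biUnion Perm.support := by
      ext a
      simp only [mem_biUnion]
      exact Perm.mem_support_iff_mem_support_of_mem_cycleFactorsFinset
    rw [hsupp, filter_biUnion, card_biUnion, dsum, Perm.cycleType_def, Multiset.map_map]
    · refine sum_congr rfl fun c hc => ?_
      have hon := Perm.isCycleOn_support_of_mem_cycleFactorsFinset hc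
      simp only [Function.comp_apply]
      split_ifs with h
      · rw [filter_true_of_mem fun a ha => (hon.pow_apply_eq ha).2 h]
      · rw [filter_false_of_mem fun a ha h' => h ((hon.pow_apply_eq ha).1 h')]
        rfl
    · intro c hc c' hc' hne
      exact disjoint_filter_filter
        (τ.cycleFactorsFinset_pairwise_disjoint hc hc' hne).disjoint_support
  have h2 : (τ.supportᶜ.filter fun a => (τ ^ n) a = a).card =
      Fintype.card Ω - τ.support.card := by
    rw [filter_true_of_mem, card_compl]
    intro a ha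
    exact Perm.pow_apply_eq_self_of_apply_eq_self (by simpa using ha) n
  rw [fixc, ← union_compl τ.support, filter_union,
    card_union_of_disjoint (disjoint_filter_filter disjoint_compl_right), h1, h2]
  simp [dsum, Perm.parts_partition]

theorem fixc_eq_sum (τ : Perm Ω) (n : ℕ) : fixc τ n =
    ∑ k ∈ Icc 1 (Fintype.card Ω), τ.partition.parts.count k * if k ∣ n then k else 0 := by
  rw [fixc_eq_dsum, dsum, sum_map_eq_sum_count (s := Icc 1 (Fintype.card Ω))]
  · rfl
  · exact fun L hL => mem_Icc.2 ⟨τ.partition.parts_pos hL, Nat.Partition.le_of_mem_parts hL⟩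

theorem card_partition_mul_zee (lam : Nat.Partition (Fintype.card Ω)) :
    (univ.filter fun τ : Perm Ω => τ.partition = lam).card *
      zee (Fintype.card Ω) (fun k => lam.parts.count k) = (Fintype.card Ω).factorial := by
  set m := lam.parts.filter (2 ≤ ·) with hm
  have hparts : lam.parts = m + Multiset.replicate (lam.parts.count 1) 1 := by
    conv_lhs => rw [← Multiset.filter_add_not (2 ≤ ·) lam.parts]
    congr 1
    rw [← Multiset.filter_eq' lam.parts 1]
    refine Multiset.filter_congr fun a ha => ?_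
    have := lam.parts_pos ha
    omega
  have hsum : m.sum + lam.parts.count 1 = Fintype.card Ω := by
    have := lam.parts_sum
    rw [hparts] at this
    simpa using this
  have hfilter : (univ.filter fun τ : Perm Ω => τ.partition = lam) =
      univ.filter fun τ : Perm Ω => τ.cycleType = m := by
    refine filter_congr fun τ _ => ⟨fun h => ?_, fun h => ?_⟩
    · rw [← Perm.filter_parts_partition_eq_cycleType, h]
    · ext1
      rw [Perm.parts_partition, hparts, ← Perm.sum_cycleType, h]
      congr 2
      omega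
  have h := Perm.card_of_cycleType_mul_eq Ω m
  rw [if_pos ⟨by omega, fun a ha => (Multiset.mem_filter.1 ha).2⟩] at h
  rw [hfilter, ← h]
  congr 1
  have hcount : ∀ k, 2 ≤ k → m.count k = lam.parts.count k := fun k hk =>
    Multiset.count_filter_of_pos hk
  have hsub : insert 1 m.toFinset ⊆ insert 1 (Icc 1 (Fintype.card Ω)) := by
    refine insert_subset_insert _ fun k hk => ?_
    have hk' := (Multiset.mem_filter.1 (Multiset.mem_toFinset.1 hk)).1
    exact mem_Icc.2 ⟨lam.parts_pos hk', Nat.Partition.le_of_mem_parts hk'⟩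
  have h1 : zee (Fintype.card Ω) (fun k => lam.parts.count k) =
      ∏ k ∈ insert 1 (Icc 1 (Fintype.card Ω)),
        k ^ lam.parts.count k * (lam.parts.count k).factorial := by
    refine prod_subset (subset_insert _ _) fun k hk hk' => ?_
    have : lam.parts.count k = 0 := by
      refine Multiset.count_eq_zero.2 fun h => hk' ?_
      exact mem_Icc.2 ⟨lam.parts_pos h, Nat.Partition.le_of_mem_parts h⟩
    simp [this]
  rw [h1, ← prod_subset hsub, prod_insert, prod_mul_distrib, Finset.prod_multiset_count]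
  · rw [show Fintype.card Ω - m.sum = lam.parts.count 1 by omega, one_pow, one_mul, mul_assoc]
    congr 2 <;> refine prod_congr rfl fun k hk => ?_ <;>
      rw [hcount k (Multiset.mem_filter.1 (Multiset.mem_toFinset.1 hk)).2]
  · simp [hm]
  · intro k _ hk
    simp only [mem_insert, Multiset.mem_toFinset, not_or] at hk
    have : lam.parts.count k = 0 := by
      refine Multiset.count_eq_zero.2 fun h => hk.2 (Multiset.mem_filter.2 ⟨h, ?_⟩)
      have := lam.parts_pos h
      omega
    simp [this]

theorem sum_perm_partition [CharZero K] {t : ℕ} (ht : Fintype.card Ω = t)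
    (Φ : Multiset ℕ → K) :
    ∑ τ : Perm Ω, Φ τ.partition.parts = t.factorial *
      ∑ lam : Nat.Partition t, ((zee t fun k => lam.parts.count k : ℕ) : K)⁻¹ * Φ lam.parts := by
  subst ht
  rw [← sum_fiberwise (g := fun τ : Perm Ω => τ.partition), mul_sum]
  refine sum_congr rfl fun lam _ => ?_
  rw [sum_congr rfl (g := fun _ => Φ lam.parts) fun τ hτ => by rw [(mem_filter.1 hτ).2],
    sum_const, nsmul_eq_mul, ← card_partition_mul_zee lam]
  have : ((zee (Fintype.card Ω) fun k => lam.parts.count k : ℕ) : K) ≠ 0 := by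
    refine Nat.cast_ne_zero.2 fun h => ?_
    have := card_partition_mul_zee lam
    rw [h, mul_zero] at this
    exact Nat.factorial_ne_zero _ this.symm
  push_cast
  field_simp

/-- `(-1) ^ (number of cycles of σ in A)`. -/
def sgnOn (K : Type*) [Field K] (σ : Perm Ω) (A : Finset Ω) : K :=
  if h : Inv σ A then
    (-1) ^ A.card * ((Perm.sign (σ.subtypePerm h : Perm {a // a ∈ A}) : ℤ) : K) else 0

theorem sum_sgnOn {σ : Perm Ω} {D : Finset Ω} (hD : Inv σ D) :
    ∑ A ∈ invs σ D, sgnOn K σ A = if D = ∅ then 1 else 0 := by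
  split_ifs with h
  · subst h
    have : invs σ ∅ = {∅} := by
      ext A
      simp only [mem_invs, subset_empty, mem_singleton, and_iff_left_iff_imp]
      rintro rfl
      exact hD
    rw [this, sum_singleton, sgnOn, dif_pos hD, Subsingleton.elim (σ.subtypePerm hD) 1]
    simp
  · obtain ⟨ω, hω⟩ := nonempty_iff_ne_empty.2 h
    rw [sum_invs_step hD hω _ (-1)]
    · simp
    intro A hA hdisj
    have hU := hA.union (inv_orb σ ω)
    rw [sgnOn, sgnOn, dif_pos hA, dif_pos hU, card_union_of_disjoint hdisj,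
      ← Perm.sign_ofSubtype, ← Perm.sign_ofSubtype]
    have hmul : Perm.ofSubtype (σ.subtypePerm hU : Perm {a // a ∈ A ∪ orb σ ω}) =
        Perm.ofSubtype (σ.subtypePerm hA : Perm {a // a ∈ A}) * σ.cycleOf ω := by
      ext a
      rw [Perm.mul_apply, Perm.cycleOf_apply]
      by_cases ha : a ∈ orb σ ω
      · rw [if_pos (mem_orb.1 ha), Perm.ofSubtype_subtypePerm_of_mem hU (mem_union_right _ ha),
          Perm.ofSubtype_subtypePerm_of_not_mem hA
            (disjoint_right.1 hdisj ((inv_orb σ ω a).2 ha))]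
      · rw [if_neg (mt mem_orb.2 ha)]
        by_cases haA : a ∈ A
        · rw [Perm.ofSubtype_subtypePerm_of_mem hU (mem_union_left _ haA),
            Perm.ofSubtype_subtypePerm_of_mem hA haA]
        · rw [Perm.ofSubtype_subtypePerm_of_not_mem hU (by simp [ha, haA]),
            Perm.ofSubtype_subtypePerm_of_not_mem hA haA]
    have hsign : (-1 : K) ^ (orb σ ω).card * ((Perm.sign (σ.cycleOf ω) : ℤ) : K) = -1 := by
      by_cases hfix : σ ω = ω
      · have h1 : orb σ ω = {ω} := by
          ext a
          simp only [mem_orb, mem_singleton]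
          exact ⟨fun h => (h.eq_of_left hfix).symm, fun h => h ▸ Perm.SameCycle.rfl⟩
        rw [h1, (Perm.cycleOf_eq_one_iff σ).2 hfix]
        simp
      · have h1 : (σ.cycleOf ω).support = orb σ ω := by
          ext a
          rw [Perm.mem_support_cycleOf_iff' hfix, mem_orb]
        rw [(Perm.isCycle_cycleOf σ hfix).sign, h1]
        simp [← mul_pow]
    rw [hmul, map_mul, pow_add]
    push_cast
    linear_combination ((-1 : K) ^ A.card *
      ((Perm.sign (Perm.ofSubtype (σ.subtypePerm hA : Perm {a // a ∈ A})) : ℤ) : K)) * hsign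

end Pool.Agent.MP_5f0aae_co
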