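import Pool.Agent.MP_5f0aae_co.Count

/-! The recurrence for the signed weight of the structures. -/

namespace Pool.Agent.MP_5f0aae_co

open Finset Equiv Function Sum

variable {T : Type} [DecidableEq T] [Fintype T] {K : Type*} [Field K]

/-- The number of fixed points of `τ ^ n`. -/
def fixc (τ : Perm T) (n : ℕ) : ℕ := (univ.filter fun a => (τ ^ n) a = a).card

theorem sum_validPairs (τ : Perm T) (n m : ℕ) (ε : K) :
    ∑ y ∈ validPairs T m, ((if (τ ^ n) y.1 = y.1 ∧ (τ ^ n) y.2 = y.2 then (1 : K) else 0) +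
        (if (τ ^ n) y.1 = y.2 ∧ (τ ^ n) y.2 = y.1 then ε else 0)) =
      ((fixc τ n : K) ^ 2 - if m = 0 then (fixc τ n : K) else 0) +
        ε * ((fixc τ (2 * n) : K) - if m = 0 then (fixc τ n : K) else 0) := by
  have hfix : ∀ k, (fixc τ k : K) = ∑ a, if (τ ^ k) a = a then 1 else 0 := fun k => by
    simp [fixc]
  have h1 : ∑ y : T × T, (if (τ ^ n) y.1 = y.1 ∧ (τ ^ n) y.2 = y.2 then (1 : K) else 0) =
      (fixc τ n : K) ^ 2 := by
    rw [hfix, sq, sum_mul_sum, Fintype.sum_prod_type]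
    refine sum_congr rfl fun a _ => sum_congr rfl fun b _ => ?_
    by_cases ha : (τ ^ n) a = a <;> by_cases hb : (τ ^ n) b = b <;> simp [ha, hb]
  have h2 : ∑ y : T × T, (if (τ ^ n) y.1 = y.2 ∧ (τ ^ n) y.2 = y.1 then ε else 0) =
      ε * fixc τ (2 * n) := by
    rw [hfix, Fintype.sum_prod_type, mul_sum]
    refine sum_congr rfl fun a _ => ?_
    rw [sum_eq_single ((τ ^ n) a)]
    · simp [two_mul, pow_add]
    · intro b _ hb
      rw [if_neg fun h => hb h.1.symm]
    · simp
  have hall := sum_add_distrib (s := (univ : Finset (T × T)))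
    (f := fun y => if (τ ^ n) y.1 = y.1 ∧ (τ ^ n) y.2 = y.2 then (1 : K) else 0)
    (g := fun y => if (τ ^ n) y.1 = y.2 ∧ (τ ^ n) y.2 = y.1 then ε else 0)
  rw [h1, h2] at hall
  by_cases hm : m = 0
  · have hsplit := sum_filter_add_sum_filter_not (univ : Finset (T × T)) (fun y => y.1 = y.2)
      fun y => (if (τ ^ n) y.1 = y.1 ∧ (τ ^ n) y.2 = y.2 then (1 : K) else 0) +
        (if (τ ^ n) y.1 = y.2 ∧ (τ ^ n) y.2 = y.1 then ε else 0)
    have hdiag : ∑ y ∈ (univ : Finset (T × T)).filter (fun y => y.1 = y.2),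
        ((if (τ ^ n) y.1 = y.1 ∧ (τ ^ n) y.2 = y.2 then (1 : K) else 0) +
          (if (τ ^ n) y.1 = y.2 ∧ (τ ^ n) y.2 = y.1 then ε else 0)) =
        (1 + ε) * fixc τ n := by
      rw [sum_filter, Fintype.sum_prod_type, hfix, mul_sum]
      refine sum_congr rfl fun a _ => ?_
      rw [sum_eq_single a]
      · by_cases ha : (τ ^ n) a = a <;> simp [ha]
      · intro b _ hb
        rw [if_neg hb.symm]
      · simp
    have hv : validPairs T m = (univ : Finset (T × T)).filter fun y => ¬ y.1 = y.2 := by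
      ext y
      simp [mem_validPairs, hm]
    rw [hdiag, hall] at hsplit
    rw [hv, if_pos hm]
    linear_combination hsplit
  · have hv : validPairs T m = univ := by
      ext y
      simp [mem_validPairs, hm]
    rw [hv, hall, if_neg hm]
    ring

theorem sum_reindex_mul {s j : ℕ} (hj : 1 ≤ j) (F G : ℕ → K) (hF : ∀ m, s < m → F m = 0) :
    ∑ n ∈ range s, F ((n + 1) * j) * G (n + 1) =
      ∑ m ∈ Icc 1 s, if j ∣ m then F m * G (m / j) else 0 := by
  rw [← sum_filter, ← sum_filter_of_ne (p := fun n => (n + 1) * j ≤ s)]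
  · refine sum_nbij' (fun n => (n + 1) * j) (fun m => m / j - 1) ?_ ?_ ?_ ?_ ?_
    · intro n hn
      simp only [mem_filter, mem_range, mem_Icc] at hn ⊢
      exact ⟨⟨Nat.mul_pos (by omega) hj, hn.2⟩, dvd_mul_left _ _⟩
    · intro m hm
      simp only [mem_filter, mem_range, mem_Icc] at hm ⊢
      obtain ⟨⟨h1, h2⟩, k, rfl⟩ := hm
      rw [Nat.mul_div_cancel_left _ hj]
      have hk : 0 < k := Nat.pos_of_mul_pos_left h1
      have : k ≤ j * k := Nat.le_mul_of_pos_left _ hj
      rw [Nat.sub_add_cancel hk, mul_comm]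
      omega
    · intro n _
      simp [Nat.mul_div_cancel _ hj]
    · intro m hm
      simp only [mem_filter, mem_Icc] at hm
      obtain ⟨⟨h1, h2⟩, k, rfl⟩ := hm
      have hk : 0 < k := Nat.pos_of_mul_pos_left h1
      rw [Nat.mul_div_cancel_left _ hj, Nat.sub_add_cancel hk, mul_comm]
    · intro n _
      rw [Nat.mul_div_cancel _ hj]
  · intro n _ hn
    by_contra hlt
    exact hn (by rw [hF _ (by omega), zero_mul])

theorem sum_range_dvd {s m c : ℕ} (hc : 1 ≤ c) (hm : m ∈ Icc 1 s) (A : ℕ → K) :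
    ∑ j ∈ range s, (if j + c ∣ m then A (j + c) else 0) =
      ∑ j ∈ m.divisors, if c ≤ j then A j else 0 := by
  rw [mem_Icc] at hm
  rw [← sum_filter, ← sum_filter]
  refine sum_nbij' (fun j => j + c) (fun j => j - c) ?_ ?_ ?_ ?_ fun _ _ => rfl
  · intro j hj
    simp only [mem_filter, Nat.mem_divisors] at hj ⊢
    exact ⟨⟨hj.2, by omega⟩, by omega⟩
  · intro j hj
    simp only [mem_filter, Nat.mem_divisors, mem_range] at hj ⊢
    have := Nat.le_of_dvd (by omega) hj.1.1
    rw [Nat.sub_add_cancel hj.2]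
    exact ⟨by omega, hj.1.1⟩
  · intro j _
    simp
  · intro j hj
    exact Nat.sub_add_cancel (mem_filter.1 hj).2

/-- Contribution of `n` copies of a path with `j` points. -/
def kP (x : K) (τ : Perm T) (n j : ℕ) : K :=
  j * x ^ n * (((fixc τ n : K) ^ 2 - if j = 1 then (fixc τ n : K) else 0) +
    (-1) ^ (j / 2) * ((fixc τ (2 * n) : K) - if j = 1 then (fixc τ n : K) else 0))

/-- Contribution of copies of a cycle with `j` points. -/
def kC (K : Type*) [Field K] (j : ℕ) : K := if 3 ≤ j then (if j % 4 = 1 then 2 * j else 0) else 0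

theorem W_rec (x : K) (τ : Perm T) (s : ℕ) :
    2 * s * Wn x τ s = ∑ m ∈ Icc 1 s, (s.descFactorial m : K) * Wn x τ (s - m) *
      ∑ j ∈ m.divisors, (-1) ^ (m + j) * (kP x τ (m / j) j + kC K j) := by
  have h0 : 2 * s * Wn x τ s = ∑ p ∈ St τ (Fin s), wt x p * ((2 * s : ℕ) : K) := by
    rw [← sum_mul, Wn, W]
    push_cast
    ring
  have h1 : ∀ p ∈ St τ (Fin s), wt x p * ((2 * s : ℕ) : K) =
      ∑ m ∈ range s, ∑ y ∈ validPairs T m,
          ((m + 1 : ℕ) : K) * (wt x p * (embs (pathNb m y.1 y.2) p.2).card) +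
        ∑ m ∈ range s, wt x p * (embs (cycNb T m) p.2).card := by
    intro p hp
    have := count_darts (mem_St.1 hp).1
    rw [Fintype.card_fin] at this
    rw [this]
    push_cast
    simp only [mul_add, mul_sum]
    congr 1
    exact sum_congr rfl fun _ _ => sum_congr rfl fun _ _ => by ring
  set F : ℕ → K := fun m => (s.descFactorial m : K) * Wn x τ (s - m) with hF
  have hF0 : ∀ m, s < m → F m = 0 := fun m hm => by
    simp [hF, Nat.descFactorial_of_lt hm]
  have hpath : ∀ m ∈ range s, ∑ p ∈ St τ (Fin s), ∑ y ∈ validPairs T m,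
      ((m + 1 : ℕ) : K) * (wt x p * (embs (pathNb m y.1 y.2) p.2).card) =
      ∑ l ∈ Icc 1 s, if m + 1 ∣ l then
        F l * ((-1) ^ (l / (m + 1) * (m + 1) + (m + 1)) * kP x τ (l / (m + 1)) (m + 1)) else 0 := by
    intro m _
    rw [← sum_reindex_mul (by omega) F
      (fun n => (-1) ^ (n * (m + 1) + (m + 1)) * kP x τ n (m + 1)) hF0, sum_comm]
    have h2 : ∀ y ∈ validPairs T m, ∑ p ∈ St τ (Fin s),
        ((m + 1 : ℕ) : K) * (wt x p * (embs (pathNb m y.1 y.2) p.2).card) =
        ∑ n ∈ range s, F ((n + 1) * (m + 1)) * ((-1) ^ (n * (m + 1)) * ((m + 1 : ℕ) : K) *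
          x ^ (n + 1)) *
          ((if (τ ^ (n + 1)) y.1 = y.1 ∧ (τ ^ (n + 1)) y.2 = y.2 then (1 : K) else 0) +
        (if (τ ^ (n + 1)) y.1 = y.2 ∧ (τ ^ (n + 1)) y.2 = y.1 then (-1) ^ ((m + 1) / 2) else 0)) := by
      intro y hy
      have hy' := mem_validPairs.1 hy
      rw [← mul_sum, sum_wt_embs x τ (pre_pathNb hy') (conn_pathNb m y.1 y.2) (td_pathNb hy'),
        mul_sum, Fintype.card_fin]
      refine sum_congr rfl fun n _ => ?_
      rw [sum_sign_path _ hy', Fintype.card_fin, hF]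
      ring
    rw [sum_congr rfl h2, sum_comm]
    refine sum_congr rfl fun n _ => ?_
    rw [← mul_sum, sum_validPairs, kP]
    have h3 : (-1 : K) ^ ((n + 1) * (m + 1) + (m + 1)) = (-1) ^ (n * (m + 1)) := by
      rw [show (n + 1) * (m + 1) + (m + 1) = n * (m + 1) + 2 * (m + 1) by ring, pow_add, pow_mul]
      simp
    simp only [h3, Nat.add_eq_right]
    ring
  have hcyc : ∀ m ∈ range s, ∑ p ∈ St τ (Fin s), wt x p * (embs (cycNb T m) p.2).card =
      ∑ l ∈ Icc 1 s, if m + 3 ∣ l then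
        F l * ((-1) ^ (l / (m + 3) * (m + 3) + (m + 3)) * kC K (m + 3)) else 0 := by
    intro m _
    rw [← sum_reindex_mul (by omega) F
      (fun n => (-1) ^ (n * (m + 3) + (m + 3)) * kC K (m + 3)) hF0,
      sum_wt_embs x τ (pre_cycNb m) (conn_cycNb m) (td_cycNb m), Fintype.card_fin]
    refine sum_congr rfl fun n _ => ?_
    have h3 : (-1 : K) ^ ((n + 1) * (m + 3) + (m + 3)) = (-1) ^ (n * (m + 3)) := by
      rw [show (n + 1) * (m + 3) + (m + 3) = n * (m + 3) + 2 * (m + 3) by ring, pow_add, pow_mul]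
      simp
    rw [sum_sign_cyc, ZMod.card, hF, h3, kC, if_pos (show 3 ≤ m + 3 by omega)]
    ring
  rw [h0, sum_congr rfl h1, sum_add_distrib, sum_comm, sum_congr rfl hpath,
    sum_comm (s := St τ (Fin s)), sum_congr rfl hcyc, sum_comm, sum_comm (s := range s),
    ← sum_add_distrib]
  refine sum_congr rfl fun l hl => ?_
  rw [sum_range_dvd le_rfl hl
      fun j => F l * ((-1) ^ (l / j * j + j) * kP x τ (l / j) j),
    sum_range_dvd (by omega) hl fun j => F l * ((-1) ^ (l / j * j + j) * kC K j),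
    ← sum_add_distrib, mul_sum]
  refine sum_congr rfl fun j hj => ?_
  rw [Nat.div_mul_cancel (Nat.dvd_of_mem_divisors hj), 
    if_pos (show 1 ≤ j from Nat.pos_of_mem_divisors hj)]
  split_ifs with h3
  · simp only [hF]
    ring
  · simp only [hF, kC, if_neg h3]
    ring

theorem Wn_zero (x : K) (τ : Perm T) : Wn x τ 0 = 1 := by
  have : St τ (Fin 0) = {(1, Fin.elim0)} := by
    ext p
    simp only [mem_St, mem_singleton]
    constructor
    · exact fun _ => Prod.ext (Subsingleton.elim _ _) (funext fun v => v.elim0)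
    · rintro rfl
      exact ⟨⟨fun v => v.elim0, fun v => v.elim0, fun v => v.elim0⟩, fun v => v.elim0⟩
  simp [Wn, W, this, wt, td]

/-- The coefficients of the exponential generating function. -/
noncomputable def aCoef (x : K) (τ : Perm T) (s : ℕ) : K :=
  (-x) ^ s * Wn x τ s / s.factorial

/-- Twice the logarithmic derivative. -/
def kCoef (x : K) (τ : Perm T) (m : ℕ) : K :=
  ∑ j ∈ m.divisors, (-1) ^ j * x ^ m * (kP x τ (m / j) j + kC K j)

theorem aCoef_rec [CharZero K] (x : K) (τ : Perm T) (s : ℕ) :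
    2 * s * aCoef x τ s = ∑ m ∈ Icc 1 s, kCoef x τ m * aCoef x τ (s - m) := by
  have h := W_rec x τ s
  have hs : (s.factorial : K) ≠ 0 := Nat.cast_ne_zero.2 s.factorial_ne_zero
  have h1 : 2 * s * aCoef x τ s = (-x) ^ s / s.factorial * (2 * s * Wn x τ s) := by
    rw [aCoef]
    ring
  rw [h1, h, mul_sum]
  refine sum_congr rfl fun m hm => ?_
  obtain ⟨k, rfl⟩ := Nat.exists_eq_add_of_le (mem_Icc.1 hm).2
  have hk : (k.factorial : K) ≠ 0 := Nat.cast_ne_zero.2 k.factorial_ne_zero
  have h2 : (((m + k).descFactorial m : ℕ) : K) = (m + k).factorial / k.factorial := by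
    have := Nat.factorial_mul_descFactorial (Nat.le_add_right m k)
    rw [Nat.add_sub_cancel_left] at this
    rw [← this]
    push_cast
    field_simp
  rw [kCoef, aCoef, Nat.add_sub_cancel_left, h2, mul_sum, mul_sum, sum_mul]
  refine sum_congr rfl fun j _ => ?_
  have h3 : (-x) ^ m = (-1) ^ m * x ^ m := neg_pow x m
  have h4 : ((-1 : K) ^ m) * (-1) ^ m = 1 := by
    rw [← mul_pow]
    simp
  rw [pow_add, pow_add, h3]
  field_simp
  linear_combination (x ^ m * (-x) ^ k * Wn x τ k * (kP x τ (m / j) j + kC K j)) * h4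

end Pool.Agent.MP_5f0aae_co
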