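import Mathlib

/-! Structures: a set `S` of points of degree two attached to a set `T`. -/

namespace Pool.Agent.MP_5f0aae_co

open Finset Equiv Function Sum

section Basic

variable {T S S' S'' J : Type} [DecidableEq T] [DecidableEq S] [DecidableEq S'] [DecidableEq S'']
  [DecidableEq J]

structure Pre (nb : S → Finset (T ⊕ S)) : Prop where
  card : ∀ v, (nb v).card = 2
  symm : ∀ u v, inr u ∈ nb v → inr v ∈ nb u
  irrefl : ∀ v, inr v ∉ nb v

def Hom (φ : T → T) (e : S → S') (nb : S → Finset (T ⊕ S)) (nb' : S' → Finset (T ⊕ S')) : Prop :=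
  ∀ v, nb' (e v) = (nb v).image (Sum.map φ e)

omit [DecidableEq S] in
theorem Hom.comp {φ ψ : T → T} {e : S → S'} {e' : S' → S''} {nb nb' nb''}
    (h' : Hom ψ e' nb' nb'') (h : Hom φ e nb nb') : Hom (ψ ∘ φ) (e' ∘ e) nb nb'' := by
  intro v
  rw [Function.comp_apply, h', h, image_image, Sum.map_comp_map]

theorem Hom.refl (nb : S → Finset (T ⊕ S)) : Hom id id nb nb := by
  intro v
  simp

theorem Hom.pow {τ : Perm T} {ρ : Perm S} {nb : S → Finset (T ⊕ S)} (h : Hom τ ρ nb nb) (n : ℕ) :
    Hom (τ ^ n) (ρ ^ n) nb nb := by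
  induction n with
  | zero => simpa using Hom.refl nb
  | succ n ih =>
    have := h.comp ih
    simpa [pow_succ'] using this

omit [DecidableEq S] in
theorem Hom.of_comp {φ : T → T} {e : S → S'} {e' : S' → S''} {nb nb' nb''}
    (he' : Injective e') (h' : Hom id e' nb' nb'') (h : Hom φ (e' ∘ e) nb nb'') :
    Hom φ e nb nb' := by
  intro v
  have h1 := h v
  rw [Function.comp_apply, h'] at h1
  apply image_injective (f := Sum.map id e') (Sum.map_injective.2 ⟨injective_id, he'⟩)
  rw [h1, image_image, Sum.map_comp_map]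
  rfl

omit [DecidableEq S] in
theorem Hom.inr_mem {φ : T → T} {e : S → S'} {nb nb'} (h : Hom φ e nb nb') {u v : S}
    (huv : inr u ∈ nb v) : inr (e u) ∈ nb' (e v) := by
  rw [h]
  exact mem_image.2 ⟨_, huv, rfl⟩

omit [DecidableEq S] in
theorem Hom.inl_mem {φ : T → T} {e : S → S'} {nb nb'} (h : Hom φ e nb nb') {a : T} {v : S}
    (huv : inl a ∈ nb v) : inl (φ a) ∈ nb' (e v) := by
  rw [h]
  exact mem_image.2 ⟨_, huv, rfl⟩

omit [DecidableEq S] in
theorem Hom.exists_of_inr_mem {φ : T → T} {e : S → S'} {nb nb'} (h : Hom φ e nb nb') {w : S'}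
    {v : S} (hw : inr w ∈ nb' (e v)) : ∃ u, inr u ∈ nb v ∧ e u = w := by
  rw [h] at hw
  obtain ⟨z, hz, hzw⟩ := mem_image.1 hw
  cases z with
  | inl a => simp at hzw
  | inr u => exact ⟨u, hz, by simpa using hzw⟩

omit [DecidableEq S] in
theorem Pre.of_hom {φ : T → T} {e : S → S'} {nb nb'} (hφ : Injective φ) (he : Injective e)
    (h : Hom φ e nb nb') (hp : Pre nb') : Pre nb where
  card v := by
    rw [← hp.card (e v), h, card_image_of_injective _ (Sum.map_injective.2 ⟨hφ, he⟩)]
  symm u v huv := by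
    obtain ⟨w, hw, hwv⟩ := h.exists_of_inr_mem (hp.symm _ _ (h.inr_mem huv))
    rwa [he hwv] at hw
  irrefl v hv := hp.irrefl _ (h.inr_mem hv)

/-- The number of lines from `v` to `T`. -/
def tdv (s : Finset (T ⊕ S)) : ℕ := (s.filter fun z => z.isLeft).card

omit [DecidableEq S] in
theorem tdv_image {φ : T → T} {e : S → S'} (hφ : Injective φ) (he : Injective e)
    (s : Finset (T ⊕ S)) : tdv (s.image (Sum.map φ e)) = tdv s := by
  unfold tdv
  rw [filter_image, card_image_of_injective _ (Sum.map_injective.2 ⟨hφ, he⟩)]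
  simp

end Basic

section Weights

variable {T S S' B C : Type} [DecidableEq T] [DecidableEq S] [DecidableEq S'] [DecidableEq B]
  [DecidableEq C] [Fintype T] [Fintype S] [Fintype S'] [Fintype B] [Fintype C]
  {K : Type*} [Field K]

def td (nb : S → Finset (T ⊕ S)) : ℕ := ∑ v, tdv (nb v)

open Classical in
noncomputable def St (τ : Perm T) (S : Type) [DecidableEq S] [Fintype S] :
    Finset (Perm S × (S → Finset (T ⊕ S))) :=
  univ.filter fun p => Pre p.2 ∧ Hom τ p.1 p.2 p.2

theorem mem_St {τ : Perm T} {p : Perm S × (S → Finset (T ⊕ S))} :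
    p ∈ St τ S ↔ Pre p.2 ∧ Hom τ p.1 p.2 p.2 := by
  simp [St]

def wt (x : K) (p : Perm S × (S → Finset (T ⊕ S))) : K :=
  ((Perm.sign p.1 : ℤ) : K) * x ^ (td p.2 / 2)

noncomputable def W (x : K) (τ : Perm T) (S : Type) [DecidableEq S] [Fintype S] : K :=
  ∑ p ∈ St τ S, wt x p

/-- Transport along a bijection. -/
def tr (ε : S ≃ S') (p : Perm S × (S → Finset (T ⊕ S))) : Perm S' × (S' → Finset (T ⊕ S')) :=
  (ε.permCongr p.1, fun v => (p.2 (ε.symm v)).image (Sum.map id ε))

omit [Fintype T] [Fintype S] [Fintype S'] [DecidableEq S] in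
theorem hom_tr (ε : S ≃ S') (p : Perm S × (S → Finset (T ⊕ S))) :
    Hom id ε p.2 (tr ε p).2 := by
  intro v
  simp [tr]

omit [Fintype T] [Fintype S] [Fintype S'] in
theorem tr_symm_tr (ε : S ≃ S') (p : Perm S × (S → Finset (T ⊕ S))) :
    tr ε.symm (tr ε p) = p := by
  refine Prod.ext ?_ ?_
  · ext v
    simp [tr]
  · funext v
    simp [tr, image_image]

omit [Fintype T] [Fintype S] [Fintype S'] in
theorem hom_tr_symm (ε : S ≃ S') (p : Perm S × (S → Finset (T ⊕ S))) :
    Hom id ε.symm (tr ε p).2 p.2 := by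
  have := hom_tr ε.symm (tr ε p)
  rwa [tr_symm_tr] at this

theorem tr_mem_St {τ : Perm T} (ε : S ≃ S') {p : Perm S × (S → Finset (T ⊕ S))}
    (hp : p ∈ St τ S) : tr ε p ∈ St τ S' := by
  rw [mem_St] at hp ⊢
  refine ⟨Pre.of_hom injective_id ε.symm.injective (hom_tr_symm ε p) hp.1, ?_⟩
  exact (hom_tr ε p).comp (hp.2.comp (hom_tr_symm ε p))

omit [Fintype T] in
theorem wt_tr (x : K) (ε : S ≃ S') (p : Perm S × (S → Finset (T ⊕ S))) :
    wt x (tr ε p) = wt x p := by
  have : td (tr ε p).2 = td p.2 := by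
    unfold td
    rw [← ε.sum_comp]
    refine sum_congr rfl fun v _ => ?_
    rw [hom_tr ε p v, tdv_image injective_id ε.injective]
  unfold wt
  rw [this]
  simp [tr]

theorem sum_St_tr {τ : Perm T} (ε : S ≃ S') (F : Perm S' × (S' → Finset (T ⊕ S')) → K) :
    ∑ p ∈ St τ S', F p = ∑ p ∈ St τ S, F (tr ε p) := by
  symm
  refine sum_nbij' (tr ε) (tr ε.symm) (fun p hp => tr_mem_St ε hp)
    (fun p hp => tr_mem_St ε.symm hp) (fun p _ => tr_symm_tr ε p) (fun p _ => ?_) fun _ _ => rfl
  exact tr_symm_tr ε.symm p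

theorem W_congr (x : K) (τ : Perm T) (ε : S ≃ S') : W x τ S = W x τ S' := by
  unfold W
  rw [sum_St_tr ε]
  simp only [wt_tr]

noncomputable def Wn (x : K) (τ : Perm T) (s : ℕ) : K := W x τ (Fin s)

theorem W_eq_Wn (x : K) (τ : Perm T) : W x τ S = Wn x τ (Fintype.card S) :=
  W_congr x τ (Fintype.equivFin S)

/-- `p` restricts to `q` along `e`. -/
def Ext (e : B → S) (q : Perm B × (B → Finset (T ⊕ B))) (p : Perm S × (S → Finset (T ⊕ S))) :
    Prop :=
  (∀ b, p.1 (e b) = e (q.1 b)) ∧ Hom id e q.2 p.2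

def join (q : Perm B × (B → Finset (T ⊕ B))) (r : Perm C × (C → Finset (T ⊕ C))) :
    Perm (B ⊕ C) × (B ⊕ C → Finset (T ⊕ (B ⊕ C))) :=
  (Perm.sumCongr q.1 r.1, Sum.elim (fun b => (q.2 b).image (Sum.map id inl))
    (fun c => (r.2 c).image (Sum.map id inr)))

omit [Fintype T] [Fintype B] [Fintype C] in
theorem hom_join_left (q : Perm B × (B → Finset (T ⊕ B))) (r : Perm C × (C → Finset (T ⊕ C))) :
    Hom id inl q.2 (join q r).2 := fun _ => rfl

omit [Fintype T] [Fintype B] [Fintype C] in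
theorem hom_join_right (q : Perm B × (B → Finset (T ⊕ B))) (r : Perm C × (C → Finset (T ⊕ C))) :
    Hom id inr r.2 (join q r).2 := fun _ => rfl

theorem join_mem_St {τ : Perm T} {q : Perm B × (B → Finset (T ⊕ B))}
    {r : Perm C × (C → Finset (T ⊕ C))} (hq : q ∈ St τ B) (hr : r ∈ St τ C) :
    join q r ∈ St τ (B ⊕ C) := by
  rw [mem_St] at hq hr ⊢
  refine ⟨⟨?_, ?_, ?_⟩, ?_⟩
  · rintro (b | c)
    · rw [hom_join_left q r b,
        card_image_of_injective _ (Sum.map_injective.2 ⟨injective_id, inl_injective⟩), hq.1.card]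
    · rw [hom_join_right q r c,
        card_image_of_injective _ (Sum.map_injective.2 ⟨injective_id, inr_injective⟩), hr.1.card]
  · rintro u (b | c) h
    · obtain ⟨w, hw, rfl⟩ := (hom_join_left q r).exists_of_inr_mem h
      exact (hom_join_left q r).inr_mem (hq.1.symm _ _ hw)
    · obtain ⟨w, hw, rfl⟩ := (hom_join_right q r).exists_of_inr_mem h
      exact (hom_join_right q r).inr_mem (hr.1.symm _ _ hw)
  · rintro (b | c) h
    · obtain ⟨w, hw, hwb⟩ := (hom_join_left q r).exists_of_inr_mem h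
      rw [inl_injective hwb] at hw
      exact hq.1.irrefl _ hw
    · obtain ⟨w, hw, hwb⟩ := (hom_join_right q r).exists_of_inr_mem h
      rw [inr_injective hwb] at hw
      exact hr.1.irrefl _ hw
  · rintro (b | c)
    · have h1 := ((hom_join_left q r).comp hq.2) b
      rw [hom_join_left q r b, image_image, Sum.map_comp_map]
      exact h1
    · have h1 := ((hom_join_right q r).comp hr.2) c
      rw [hom_join_right q r c, image_image, Sum.map_comp_map]
      exact h1

omit [Fintype T] in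
theorem wt_join (x : K) {q : Perm B × (B → Finset (T ⊕ B))}
    (r : Perm C × (C → Finset (T ⊕ C))) (hq : Even (td q.2)) :
    wt x (join q r) = wt x q * wt x r := by
  have : td (join q r).2 = td q.2 + td r.2 := by
    unfold td
    rw [Fintype.sum_sum_type]
    congr 1
    · exact sum_congr rfl fun b _ => by
        rw [hom_join_left q r b, tdv_image injective_id inl_injective]
    · exact sum_congr rfl fun c _ => by
        rw [hom_join_right q r c, tdv_image injective_id inr_injective]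
  unfold wt
  obtain ⟨k, hk⟩ := hq
  rw [this, show (td q.2 + td r.2) / 2 = td q.2 / 2 + td r.2 / 2 by omega, pow_add]
  simp only [join, Perm.sign_sumCongr, Units.val_mul, Int.cast_mul]
  ring

open Classical in
theorem sum_ext_inl (x : K) {τ : Perm T} {q : Perm B × (B → Finset (T ⊕ B))} (hq : q ∈ St τ B)
    (hev : Even (td q.2)) :
    ∑ p ∈ St τ (B ⊕ C), (if Ext inl q p then wt x p else 0) = wt x q * W x τ C := by
  rw [← sum_filter, W, mul_sum]
  symm
  refine sum_bij (fun r _ => join q r) (fun r hr => ?_) (fun r _ r' _ h => ?_) (fun p hp => ?_)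
    fun r _ => (wt_join x r hev).symm
  · exact mem_filter.2 ⟨join_mem_St hq hr, fun b => rfl, hom_join_left q r⟩
  · refine Prod.ext ?_ ?_
    · ext c
      have := congrArg (fun p : Perm (B ⊕ C) × (B ⊕ C → Finset (T ⊕ (B ⊕ C))) => p.1 (inr c)) h
      simpa [join] using this
    · funext c
      have := congrArg (fun p : Perm (B ⊕ C) × (B ⊕ C → Finset (T ⊕ (B ⊕ C))) => p.2 (inr c)) h
      exact image_injective (Sum.map_injective.2 ⟨injective_id, inr_injective⟩) this
  · obtain ⟨hp, hρ, hnb⟩ := mem_filter.1 hp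
    rw [mem_St] at hp
    obtain ⟨⟨ρ₁, ρ₂⟩, hρ'⟩ := Perm.mem_sumCongrHom_range_of_perm_mapsTo_inl (σ := p.1) (by
      rintro _ ⟨b, rfl⟩
      exact ⟨_, (hρ b).symm⟩)
    have hρ₁ : ρ₁ = q.1 := by
      ext b
      have := hρ b
      rw [← hρ'] at this
      simpa using this
    let nb' : C → Finset (T ⊕ C) := fun c => univ.filter fun z => Sum.map id inr z ∈ p.2 (inr c)
    have hnb' : Hom id inr nb' p.2 := by
      intro c
      ext z
      simp only [nb', mem_image, mem_filter, mem_univ, true_and]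
      refine ⟨fun hz => ?_, ?_⟩
      · rcases z with a | b | c'
        · exact ⟨inl a, hz, rfl⟩
        · obtain ⟨w, -, hw⟩ := hnb.exists_of_inr_mem (hp.1.symm _ _ hz)
          simp at hw
        · exact ⟨inr c', hz, rfl⟩
      · rintro ⟨w, hw, rfl⟩
        exact hw
    refine ⟨(ρ₂, nb'), mem_St.2 ⟨Pre.of_hom injective_id inr_injective hnb' hp.1, ?_⟩, ?_⟩
    · refine Hom.of_comp inr_injective hnb' ?_
      have h1 := hp.2.comp hnb'
      have h2 : (inr ∘ ρ₂ : C → B ⊕ C) = p.1 ∘ inr := by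
        funext c
        rw [← hρ']
        simp
      simpa [h2] using h1
    · refine Prod.ext ?_ ?_
      · rw [← hρ', hρ₁]
        rfl
      · funext v
        rcases v with b | c
        · exact (hnb b).symm
        · exact (hnb' c).symm

open Classical in
theorem sum_ext (x : K) {τ : Perm T} {q : Perm B × (B → Finset (T ⊕ B))} (hq : q ∈ St τ B)
    (hev : Even (td q.2)) {e : B → S} (he : Injective e) :
    ∑ p ∈ St τ S, (if Ext e q p then wt x p else 0) =
      wt x q * Wn x τ (Fintype.card S - Fintype.card B) := by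
  let C := {v : S // v ∉ Set.range e}
  let ε : B ⊕ C ≃ S :=
    (Equiv.sumCongr (Equiv.ofInjective e he) (Equiv.refl C)).trans
      (Equiv.sumCompl fun v => v ∈ Set.range e)
  have hε : ∀ b, ε (inl b) = e b := fun b => rfl
  have hC : Fintype.card C = Fintype.card S - Fintype.card B := by
    have := Fintype.card_congr ε
    rw [Fintype.card_sum] at this
    omega
  rw [sum_St_tr ε, ← hC, ← W_eq_Wn, ← sum_ext_inl x hq hev]
  refine sum_congr rfl fun p _ => ?_
  rw [wt_tr]
  refine if_congr ⟨fun h => ⟨fun b => ?_, ?_⟩, fun h => ⟨fun b => ?_, ?_⟩⟩ rfl rfl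
  · apply ε.injective
    have := h.1 b
    rw [← hε, ← hε] at this
    simpa [tr] using this
  · exact Hom.of_comp ε.injective (hom_tr ε p) h.2
  · rw [← hε, ← hε, ← h.1 b]
    simp [tr]
  · exact (hom_tr ε p).comp h.2

end Weights

end Pool.Agent.MP_5f0aae_co
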