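import Pool.Agent.MP_5f0aae_co.Block

/-! Non-backtracking walks through points of degree two. -/

namespace Pool.Agent.MP_5f0aae_co

open Finset Equiv Function Sum

variable {T S : Type} [DecidableEq T] [DecidableEq S]

theorem pair_right_cancel {α : Type} [DecidableEq α] {a b c : α} (h : ({a, b} : Finset α) = {a, c})
    (hc : ({a, b} : Finset α).card = 2) : b = c := by
  have hab : a ≠ b := by
    rintro rfl
    simp at hc
  have : b ∈ ({a, c} : Finset α) := h ▸ by simp
  simp only [mem_insert, mem_singleton] at this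
  exact this.resolve_left hab.symm

/-- `q (k + 1)` lies in `S` and has the neighbours `q k`, `q (k + 2)`. -/
def Loc (nb : S → Finset (T ⊕ S)) (q : ℕ → T ⊕ S) (k : ℕ) : Prop :=
  ∃ w, q (k + 1) = inr w ∧ nb w = {q k, q (k + 2)}

variable {nb : S → Finset (T ⊕ S)}

theorem Loc.ne (hp : Pre nb) {q : ℕ → T ⊕ S} {k : ℕ} (h : Loc nb q k) : q k ≠ q (k + 2) := by
  obtain ⟨w, -, hw⟩ := h
  intro he
  have := hp.card w
  rw [hw, he] at this
  simp at this

theorem Loc.ne_succ (hp : Pre nb) {q : ℕ → T ⊕ S} {k : ℕ} (h : Loc nb q k) :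
    q k ≠ q (k + 1) := by
  obtain ⟨w, hw1, hw⟩ := h
  intro he
  apply hp.irrefl w
  rw [hw, he, hw1]
  simp

theorem Loc.shift {q : ℕ → T ⊕ S} {k a : ℕ} (h : Loc nb q (a + k)) :
    Loc nb (fun i => q (a + i)) k := h

theorem fwd (hp : Pre nb) {q r : ℕ → T ⊕ S} (h0 : q 0 = r 0) (h1 : q 1 = r 1) (c : ℕ)
    (hq : ∀ k < c, Loc nb q k) (hr : ∀ k < c, Loc nb r k) :
    q c = r c ∧ q (c + 1) = r (c + 1) := by
  induction c with
  | zero => exact ⟨h0, h1⟩
  | succ c ih =>
    obtain ⟨ih0, ih1⟩ := ih (fun k hk => hq k (by omega)) (fun k hk => hr k (by omega))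
    refine ⟨ih1, ?_⟩
    obtain ⟨w, hw1, hw⟩ := hq c (by omega)
    obtain ⟨w', hw1', hw'⟩ := hr c (by omega)
    have : w = w' := inr_injective (hw1.symm.trans (ih1.trans hw1'))
    subst this
    refine pair_right_cancel (a := q c) ?_ (hw ▸ hp.card w)
    rw [← hw, hw', ih0]

theorem bwd (hp : Pre nb) {q r : ℕ → T ⊕ S} (c : ℕ)
    (hq : ∀ k < c, Loc nb q k) (hr : ∀ k < c, Loc nb r k)
    (h0 : q c = r c) (h1 : q (c + 1) = r (c + 1)) : q 0 = r 0 ∧ q 1 = r 1 := by
  induction c with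
  | zero => exact ⟨h0, h1⟩
  | succ c ih =>
    refine ih (fun k hk => hq k (by omega)) (fun k hk => hr k (by omega)) ?_ h0
    obtain ⟨w, hw1, hw⟩ := hq c (by omega)
    obtain ⟨w', hw1', hw'⟩ := hr c (by omega)
    have : w = w' := inr_injective (hw1.symm.trans (h0.trans hw1'))
    subst this
    refine pair_right_cancel (a := q (c + 2)) ?_ (by rw [pair_comm, ← hw]; exact hp.card w)
    rw [pair_comm, ← hw, hw', h1, pair_comm]

theorem walk_injOn (hp : Pre nb) {q : ℕ → T ⊕ S} {L : ℕ} (hq : ∀ k < L, Loc nb q k)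
    (hper : ∀ P, 1 ≤ P → P < L → ¬ (q P = q 0 ∧ q (P + 1) = q 1)) :
    ∀ b ≤ L, ∀ a, 1 ≤ a → a < b → q a ≠ q b := by
  intro b
  induction b using Nat.strong_induction_on with
  | _ b ih =>
    intro hb a ha hab he
    obtain ⟨a, rfl⟩ : ∃ a', a = a' + 1 := ⟨a - 1, by omega⟩
    obtain ⟨b, rfl⟩ : ∃ b', b = b' + 1 := ⟨b - 1, by omega⟩
    obtain ⟨w, hw1, hw⟩ := hq a (by omega)
    obtain ⟨w', hw1', hw'⟩ := hq b (by omega)
    have : w = w' := inr_injective (hw1.symm.trans (he.trans hw1'))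
    subst this
    have hmem : q b ∈ ({q a, q (a + 2)} : Finset (T ⊕ S)) := by
      rw [← hw, hw']
      simp
    simp only [mem_insert, mem_singleton] at hmem
    rcases hmem with h | h
    · rcases Nat.eq_zero_or_pos a with rfl | ha0
      · exact hper b (by omega) (by omega) ⟨h, he.symm⟩
      · exact ih b (by omega) (by omega) a ha0 (by omega) h.symm
    · rcases lt_trichotomy (a + 2) b with h2 | h2 | h2
      · exact ih b (by omega) (by omega) (a + 2) (by omega) h2 h.symm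
      · subst h2
        exact (hq (a + 1) (by omega)).ne hp he
      · have h3 : b = a + 1 := by omega
        subst h3
        exact (hq (a + 1) (by omega)).ne_succ hp he

theorem exists_period [Finite T] [Finite S] (hp : Pre nb) {q : ℕ → T ⊕ S}
    (hq : ∀ k, Loc nb q k) : ∃ P, 1 ≤ P ∧ q P = q 0 ∧ q (P + 1) = q 1 := by
  have key : ∀ i j, i < j → (q i, q (i + 1)) = (q j, q (j + 1)) →
      ∃ P, 1 ≤ P ∧ q P = q 0 ∧ q (P + 1) = q 1 := by
    intro i j hij h
    obtain ⟨P, rfl⟩ := Nat.exists_eq_add_of_lt hij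
    have := bwd hp (q := fun k => q (P + 1 + k)) (r := q) i (fun k _ => (hq _).shift)
      (fun k _ => hq k) (by rw [(Prod.mk.inj h).1]; congr 1; omega)
      (by rw [(Prod.mk.inj h).2]; congr 1; omega)
    exact ⟨P + 1, by omega, this.1, this.2⟩
  obtain ⟨i, j, hij, h⟩ := Finite.exists_ne_map_eq_of_infinite fun k => (q k, q (k + 1))
  rcases Nat.lt_or_gt_of_ne hij with hlt | hlt
  · exact key i j hlt h
  · exact key j i hlt h.symm

open Classical in
noncomputable def nxt (nb : S → Finset (T ⊕ S)) (a : T ⊕ S) : T ⊕ S → T ⊕ S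
  | inl _ => a
  | inr v => if h : ∃ c, nb v = {a, c} then h.choose else a

theorem exists_other (hp : Pre nb) {a : T ⊕ S} {v : S} (h : a ∈ nb v) : ∃ c, nb v = {a, c} := by
  obtain ⟨y, z, -, hyz⟩ := card_eq_two.1 (hp.card v)
  rw [hyz] at h ⊢
  simp only [mem_insert, mem_singleton] at h
  rcases h with rfl | rfl
  · exact ⟨z, rfl⟩
  · exact ⟨y, pair_comm _ _⟩

theorem nxt_spec (hp : Pre nb) {a : T ⊕ S} {v : S} (h : a ∈ nb v) :
    nb v = {a, nxt nb a (inr v)} := by
  have hex := exists_other hp h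
  simp only [nxt, dif_pos hex]
  exact hex.choose_spec

noncomputable def walk (nb : S → Finset (T ⊕ S)) (a b : T ⊕ S) : ℕ → T ⊕ S
  | 0 => a
  | 1 => b
  | k + 2 => nxt nb (walk nb a b k) (walk nb a b (k + 1))

theorem walk_loc (hp : Pre nb) {a : T ⊕ S} {v : S} (h : a ∈ nb v) (k : ℕ)
    (hk : ∀ i ≤ k, (walk nb a (inr v) (i + 1)).isRight) : Loc nb (walk nb a (inr v)) k := by
  induction k with
  | zero => exact ⟨v, rfl, nxt_spec hp h⟩
  | succ k ih =>
    obtain ⟨w, hw1, hw⟩ := ih fun i hi => hk i (by omega)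
    obtain ⟨u, hu⟩ := Sum.isRight_iff.1 (hk (k + 1) le_rfl)
    refine ⟨u, hu, ?_⟩
    have h1 : inr u ∈ nb w := by
      rw [hw, hu]
      simp
    have h2 := nxt_spec hp (hp.symm _ _ h1)
    rw [h2, show walk nb a (inr v) (k + 1 + 2) =
      nxt nb (walk nb a (inr v) (k + 1)) (walk nb a (inr v) (k + 1 + 1)) from rfl, hu, hw1]

/-- Either a walk never meets `T`, or there is a first time. -/
theorem walk_cases (hp : Pre nb) {a : T ⊕ S} {v : S} (h : a ∈ nb v) :
    ∃ q : ℕ → T ⊕ S, q 0 = a ∧ q 1 = inr v ∧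
      ((∀ k, Loc nb q k) ∨ ∃ m β, (∀ k < m + 1, Loc nb q k) ∧ q (m + 2) = inl β) := by
  classical
  refine ⟨walk nb a (inr v), rfl, rfl, ?_⟩
  by_cases hall : ∃ m, ¬ (walk nb a (inr v) (m + 2)).isRight
  · right
    have h1 := Nat.find_spec hall
    rw [Sum.not_isRight] at h1
    obtain ⟨β, hβ⟩ := Sum.isLeft_iff.1 h1
    refine ⟨Nat.find hall, β, fun k hk => walk_loc hp h k fun i hi => ?_, hβ⟩
    rcases i with _ | i
    · rfl
    · simpa using Nat.find_min hall (show i < Nat.find hall by omega)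
  · left
    push Not at hall
    refine fun k => walk_loc hp h k fun i _ => ?_
    rcases i with _ | i
    · rfl
    · exact hall i

end Pool.Agent.MP_5f0aae_co
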